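import Pool.Agent.Q262.Miller.Inst
import Pool.Agent.TH21.MS.JFun
import Pool.Agent.Y729.FW.Surj

/-!
The modular invariant on the arc from `i` to `e^{2πi/3}` takes values in `[0, 1728]`.
-/

set_option autoImplicit false

open UpperHalfPlane hiding I
open Complex Filter Topology Derivative EisensteinSeries ModularForm MatrixGroups Function
open scoped Manifold MatrixGroups ModularForm

namespace Q262.Miller

open Pool.Agent.TH21.MS (S_inv4 S_inv6)

/-! ### complex conjugation -/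

/-- the point `-τ̄` -/
noncomputable def refl (τ : ℍ) : ℍ := ⟨-(starRingEnd ℂ) τ, by simpa using τ.im_pos⟩

lemma qParam_refl (τ : ℍ) : Function.Periodic.qParam 1 (refl τ : ℂ)
    = (starRingEnd ℂ) (Function.Periodic.qParam 1 (τ : ℂ)) := by
  unfold Function.Periodic.qParam
  rw [← Complex.exp_conj]
  congr 1
  have : ((refl τ : ℍ) : ℂ) = -(starRingEnd ℂ) (τ : ℂ) := rfl
  rw [this]
  simp [map_ofNat]

lemma conj_form {f : ℍ → ℂ} (hf : Good f) {c : ℕ → ℝ}
    (hc : ∀ m, (qExpansion 1 f).coeff m = (c m : ℂ)) (τ : ℍ) :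
    f (refl τ) = (starRingEnd ℂ) (f τ) := by
  have h1 := hf.hasSum τ
  have h2 := hf.hasSum (refl τ)
  have h3 := h1.map (starRingEnd ℂ) Complex.continuous_conj
  have h4 : (⇑(starRingEnd ℂ) ∘ fun m : ℕ => (qExpansion 1 f).coeff m •
      Function.Periodic.qParam 1 (τ : ℂ) ^ m) = fun m : ℕ => (qExpansion 1 f).coeff m •
      Function.Periodic.qParam 1 (refl τ : ℂ) ^ m := by
    funext m
    rw [qParam_refl]
    simp only [Function.comp, smul_eq_mul, map_mul, map_pow, hc m, Complex.conj_ofReal]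
  rw [h4] at h3
  exact h2.unique h3

lemma conj_E4 (τ : ℍ) : E₄ (refl τ) = (starRingEnd ℂ) (E₄ τ) := by
  refine conj_form (good_modularForm E₄)
    (c := fun m => if m = 0 then 1 else 240 * (ArithmeticFunction.sigma 3 m : ℝ)) ?_ τ
  intro m
  have := coeff_qP m
  unfold qP at this
  rw [this]
  split_ifs <;> simp

lemma conj_E6 (τ : ℍ) : E₆ (refl τ) = (starRingEnd ℂ) (E₆ τ) := by
  refine conj_form (good_modularForm E₆)
    (c := fun m => if m = 0 then 1 else -504 * (ArithmeticFunction.sigma 5 m : ℝ)) ?_ τ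
  intro m
  have := coeff_qR m
  unfold qR at this
  rw [this]
  split_ifs <;> simp

/-! ### the arc -/

/-- the point `e^{iθ}` -/
noncomputable def pt (θ : ℝ) : ℂ := Complex.exp (θ * Complex.I)

lemma pt_im (θ : ℝ) : (pt θ).im = Real.sin θ := by
  unfold pt; rw [Complex.exp_ofReal_mul_I_im]

lemma pt_re (θ : ℝ) : (pt θ).re = Real.cos θ := by
  unfold pt; rw [Complex.exp_ofReal_mul_I_re]

lemma pt_ne (θ : ℝ) : pt θ ≠ 0 := Complex.exp_ne_zero _

lemma pt_conj (θ : ℝ) : (starRingEnd ℂ) (pt θ) * pt θ = 1 := by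
  unfold pt
  rw [← Complex.exp_conj, ← Complex.exp_add]
  simp

lemma hasDerivAt_pt (θ : ℝ) : HasDerivAt pt (Complex.I * pt θ) θ := by
  unfold pt
  have h1 : HasDerivAt (fun θ : ℝ => ((θ : ℂ) * Complex.I)) Complex.I θ := by
    have := (Complex.ofRealCLM.hasDerivAt (x := θ)).mul_const Complex.I
    simpa using this
  have := h1.cexp
  rwa [mul_comm] at this

/-- the point of the upper half plane -/
noncomputable def up (θ : ℝ) : ℍ := ofComplex (pt θ)

lemma up_coe {θ : ℝ} (h : 0 < Real.sin θ) : ((up θ : ℍ) : ℂ) = pt θ := by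
  unfold up
  have : 0 < (pt θ).im := by rw [pt_im]; exact h
  rw [ofComplex_apply_of_im_pos this]

lemma refl_up {θ : ℝ} (h : 0 < Real.sin θ) : ModularGroup.S • (up θ) = refl (up θ) := by
  apply UpperHalfPlane.ext
  rw [UpperHalfPlane.modular_S_smul]
  have h1 : ((refl (up θ) : ℍ) : ℂ) = -(starRingEnd ℂ) ((up θ : ℍ) : ℂ) := rfl
  rw [h1]
  show (-((up θ : ℍ) : ℂ))⁻¹ = _
  rw [up_coe h, inv_neg]
  congr 1
  exact (eq_inv_of_mul_eq_one_left (pt_conj θ)).symm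

/-- `z² E_4(z)` -/
noncomputable def hh (θ : ℝ) : ℂ := pt θ ^ 2 * E₄ (up θ)
/-- `z³ E_6(z)` -/
noncomputable def gg (θ : ℝ) : ℂ := pt θ ^ 3 * E₆ (up θ)
/-- `z⁶ Δ(z)` -/
noncomputable def dd (θ : ℝ) : ℂ := pt θ ^ 6 * discriminant (up θ)

lemma hh_conj {θ : ℝ} (h : 0 < Real.sin θ) : (starRingEnd ℂ) (hh θ) = hh θ := by
  unfold hh
  rw [map_mul, map_pow, ← conj_E4, ← refl_up h, S_inv4, up_coe h]
  have := pt_conj θ
  linear_combination (pt θ ^ 2 * E₄ (up θ) * ((starRingEnd ℂ) (pt θ) * pt θ + 1)) * this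

lemma gg_conj {θ : ℝ} (h : 0 < Real.sin θ) : (starRingEnd ℂ) (gg θ) = gg θ := by
  unfold gg
  rw [map_mul, map_pow, ← conj_E6, ← refl_up h, S_inv6, up_coe h]
  have := pt_conj θ
  set a := (starRingEnd ℂ) (pt θ)
  linear_combination (pt θ ^ 3 * E₆ (up θ) * ((a * pt θ) ^ 2 + a * pt θ + 1)) * this

lemma dd_eq (θ : ℝ) : dd θ = (hh θ ^ 3 - gg θ ^ 2) / 1728 := by
  unfold dd hh gg
  rw [discriminant_eq_E₄_cube_sub_E₆_sq]
  ring

lemma dd_ne (θ : ℝ) : dd θ ≠ 0 := mul_ne_zero (pow_ne_zero _ (pt_ne θ)) (discriminant_ne_zero _)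

lemma j_eq (θ : ℝ) : E₄ (up θ) ^ 3 / discriminant (up θ) = hh θ ^ 3 / dd θ := by
  unfold hh dd
  have := pt_ne θ
  have := discriminant_ne_zero (up θ)
  field_simp

lemma hasDerivAt_form {f : ℍ → ℂ} (hf : MDiff f) {θ : ℝ} (h : 0 < Real.sin θ) :
    HasDerivAt (fun t => f (up t)) (-(2 * Real.pi) * pt θ * D f (up θ)) θ := by
  have h1 := (UpperHalfPlane.mdifferentiableAt_iff.mp (hf (up θ))).hasDerivAt
  rw [up_coe h] at h1
  have h2 := h1.comp θ (hasDerivAt_pt θ)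
  have h3 : deriv (f ∘ ofComplex) (pt θ) * (Complex.I * pt θ)
      = -(2 * Real.pi) * pt θ * D f (up θ) := by
    unfold normalizedDerivOfComplex
    rw [up_coe h]
    have h6 : (2 * (Real.pi : ℂ) * Complex.I) ≠ 0 := Complex.two_pi_I_ne_zero
    have hI : Complex.I * Complex.I = -1 := Complex.I_mul_I
    have hpi : (Real.pi : ℂ) ≠ 0 := by exact_mod_cast Real.pi_ne_zero
    have hI0 : Complex.I ≠ 0 := Complex.I_ne_zero
    field_simp
    rw [pow_two, hI]
    ring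
  rw [h3] at h2
  exact h2

/-! ### the differential equations on the arc -/

/-- the auxiliary function -/
noncomputable def rr (θ : ℝ) : ℂ := pt θ * E2 (up θ) - 3 * Complex.I / Real.pi

lemma hasDerivAt_pt_pow (n : ℕ) (θ : ℝ) :
    HasDerivAt (fun t => pt t ^ n) (n * Complex.I * pt θ ^ n) θ := by
  have h := (hasDerivAt_pt θ).pow n
  refine h.congr_deriv ?_
  cases n with
  | zero => simp
  | succ n =>
    simp only [Nat.add_sub_cancel]
    ring

lemma hasDerivAt_hh {θ : ℝ} (h : 0 < Real.sin θ) :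
    HasDerivAt hh (-(2 * Real.pi / 3) * rr θ * hh θ + (2 * Real.pi / 3) * gg θ) θ := by
  have h1 := (hasDerivAt_pt_pow 2 θ).mul (hasDerivAt_form (ModularFormClass.holo E₄) h)
  have h2 : D (fun t => E₄ t) (up θ) = 3⁻¹ * (E2 (up θ) * E₄ (up θ) - E₆ (up θ)) :=
    Pool.Agent.Y949.J.ram4 (up θ)
  have h3 : D (⇑E₄) (up θ) = 3⁻¹ * (E2 (up θ) * E₄ (up θ) - E₆ (up θ)) := h2
  rw [h3] at h1
  have hpi : (Real.pi : ℂ) ≠ 0 := by exact_mod_cast Real.pi_ne_zero
  refine h1.congr_deriv ?_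
  unfold rr hh gg
  push_cast
  field_simp
  ring

lemma hasDerivAt_gg {θ : ℝ} (h : 0 < Real.sin θ) :
    HasDerivAt gg (-Real.pi * rr θ * gg θ + Real.pi * hh θ ^ 2) θ := by
  have h1 := (hasDerivAt_pt_pow 3 θ).mul (hasDerivAt_form (ModularFormClass.holo E₆) h)
  have h3 : D (⇑E₆) (up θ) = 2⁻¹ * (E2 (up θ) * E₆ (up θ) - E₄ (up θ) ^ 2) :=
    Pool.Agent.Y949.J.ram6 (up θ)
  rw [h3] at h1
  have hpi : (Real.pi : ℂ) ≠ 0 := by exact_mod_cast Real.pi_ne_zero
  refine h1.congr_deriv ?_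
  unfold rr hh gg
  push_cast
  field_simp
  ring

lemma hasDerivAt_dd {θ : ℝ} (h : 0 < Real.sin θ) :
    HasDerivAt dd (-(2 * Real.pi) * rr θ * dd θ) θ := by
  have h1 := (((hasDerivAt_hh h).pow 3).sub ((hasDerivAt_gg h).pow 2)).div_const 1728
  have h2 : (fun t => (hh t ^ 3 - gg t ^ 2) / 1728) = dd := by
    funext t; exact (dd_eq t).symm
  have h4 := h1.congr_deriv (g' := -(2 * Real.pi) * rr θ * dd θ) (by
    rw [dd_eq]
    push_cast
    ring)
  have h5 : HasDerivAt (fun t => (hh t ^ 3 - gg t ^ 2) / 1728)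
    (-(2 * Real.pi) * rr θ * dd θ) θ := h4
  rwa [h2] at h5

/-- `j` on the arc -/
noncomputable def jj (θ : ℝ) : ℂ := hh θ ^ 3 / dd θ

lemma hasDerivAt_jj {θ : ℝ} (h : 0 < Real.sin θ) :
    HasDerivAt jj (2 * Real.pi * gg θ * hh θ ^ 2 / dd θ) θ := by
  have h1 := ((hasDerivAt_hh h).pow 3).div (hasDerivAt_dd h) (dd_ne θ)
  have h0 := dd_ne θ
  refine h1.congr_deriv ?_
  simp only [Pi.pow_apply]
  push_cast
  field_simp
  ring

lemma jj_eq (θ : ℝ) : jj θ = gg θ ^ 2 / dd θ + 1728 := by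
  unfold jj
  have h0 := dd_ne θ
  have h1 := dd_eq θ
  field_simp
  rw [h1]
  ring

end Q262.Miller
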