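import Pool.Agent.Q262.Miller.Arc

/-!
The modular invariant on the arc from `i` to `e^{2πi/3}` takes values in `[0, 1728]`.
-/

set_option autoImplicit false

open UpperHalfPlane hiding I
open Complex Filter Topology Derivative EisensteinSeries ModularForm MatrixGroups Function
open scoped Manifold MatrixGroups ModularForm

namespace Q262.Miller

open Pool.Agent.TH21.MS (S_inv4 S_inv6)

lemma eq_of_qParam {f : ℍ → ℂ} (hf : Good f) {τ τ' : ℍ}
    (h : Function.Periodic.qParam 1 (τ : ℂ) = Function.Periodic.qParam 1 (τ' : ℂ)) :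
    f τ = f τ' := by
  have h1 := hf.hasSum τ
  have h2 := hf.hasSum τ'
  rw [h] at h1
  exact h1.unique h2

lemma sin_pos_of_mem {θ : ℝ} (h : θ ∈ Set.Icc (Real.pi / 2) (2 * Real.pi / 3)) :
    0 < Real.sin θ := by
  have := Real.pi_pos
  exact Real.sin_pos_of_pos_of_lt_pi (by linarith [h.1]) (by linarith [h.2])

lemma pt_half : pt (Real.pi / 2) = Complex.I := by
  unfold pt
  push_cast
  rw [Complex.exp_mul_I, Complex.cos_pi_div_two, Complex.sin_pi_div_two]
  ring

lemma half_mem : Real.pi / 2 ∈ Set.Icc (Real.pi / 2) (2 * Real.pi / 3) :=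
  ⟨le_rfl, by linarith [Real.pi_pos]⟩

lemma gg_half : gg (Real.pi / 2) = 0 := by
  have h0 := sin_pos_of_mem half_mem
  have h1 := refl_up h0
  have h2 : refl (up (Real.pi / 2)) = up (Real.pi / 2) := by
    apply UpperHalfPlane.ext
    have : ((refl (up (Real.pi / 2)) : ℍ) : ℂ)
      = -(starRingEnd ℂ) ((up (Real.pi / 2) : ℍ) : ℂ) := rfl
    rw [this, up_coe h0, pt_half, Complex.conj_I, neg_neg]
  have h3 := S_inv6 (up (Real.pi / 2))
  rw [h1, h2, up_coe h0, pt_half] at h3
  have h4 : Complex.I ^ 6 = -1 := by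
    rw [show (6 : ℕ) = 4 + 2 by rfl, pow_add, Complex.I_pow_four, Complex.I_sq]; ring
  rw [h4] at h3
  have h5 : E₆ (up (Real.pi / 2)) = 0 := by linear_combination (1 / 2 : ℂ) * h3
  unfold gg
  rw [h5, mul_zero]

lemma E4_half : 0 < (E₄ (up (Real.pi / 2))).re := by
  have h0 := sin_pos_of_mem half_mem
  have h1 := (good_modularForm E₄).hasSum (up (Real.pi / 2))
  have h2 := Complex.hasSum_re h1
  have hq : Function.Periodic.qParam 1 ((up (Real.pi / 2) : ℍ) : ℂ)
      = ((Real.exp (-(2 * Real.pi)) : ℝ) : ℂ) := by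
    rw [up_coe h0, pt_half]
    unfold Function.Periodic.qParam
    push_cast
    congr 1
    have := Complex.I_mul_I
    linear_combination (2 * (Real.pi : ℂ)) * this
  have h3 : ∀ m : ℕ, ((qExpansion 1 (E₄ : ℍ → ℂ)).coeff m •
      Function.Periodic.qParam 1 ((up (Real.pi / 2) : ℍ) : ℂ) ^ m).re
      = (if m = 0 then 1 else 240 * (ArithmeticFunction.sigma 3 m : ℝ))
        * Real.exp (-(2 * Real.pi)) ^ m := by
    intro m
    have h4 := coeff_qP m
    unfold qP at h4
    rw [h4, hq, ← Complex.ofReal_pow, smul_eq_mul, Complex.re_mul_ofReal]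
    congr 1
    split_ifs <;> simp
  have h5 : (1 : ℝ) ≤ (E₄ (up (Real.pi / 2))).re := by
    have h6 := le_hasSum h2 0 (by
      intro m _
      rw [h3 m]
      apply mul_nonneg
      · split_ifs <;> positivity
      · positivity)
    rw [h3 0] at h6
    simpa using h6
  linarith

lemma hh_third : hh (2 * Real.pi / 3) = 0 := by
  have hmem : 2 * Real.pi / 3 ∈ Set.Icc (Real.pi / 2) (2 * Real.pi / 3) :=
    ⟨by linarith [Real.pi_pos], le_rfl⟩
  have h0 := sin_pos_of_mem hmem
  set z := pt (2 * Real.pi / 3) with hz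
  have hz3 : z ^ 3 = 1 := by
    rw [hz]; unfold pt
    rw [← Complex.exp_nat_mul]
    have : ((3 : ℕ) : ℂ) * (((2 * Real.pi / 3 : ℝ) : ℂ) * Complex.I) = 2 * Real.pi * Complex.I := by
      push_cast; ring
    rw [this, Complex.exp_two_pi_mul_I]
  have hz1 : z ≠ 1 := by
    intro h
    have := pt_im (2 * Real.pi / 3)
    rw [← hz, h] at this
    simp at this
    linarith
  have hz2 : z ^ 2 + z + 1 = 0 := by
    have : (z - 1) * (z ^ 2 + z + 1) = 0 := by linear_combination hz3
    rcases mul_eq_zero.mp this with h | h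
    · exact absurd (sub_eq_zero.mp h) hz1
    · exact h
  have hconj : -(starRingEnd ℂ) z = z + 1 := by
    have h1 := pt_conj (2 * Real.pi / 3)
    rw [← hz] at h1
    have hz0 : z ≠ 0 := pt_ne _
    apply mul_right_cancel₀ hz0
    linear_combination -h1 - hz2
  have h1 := refl_up h0
  have h2 : E₄ (refl (up (2 * Real.pi / 3))) = E₄ (up (2 * Real.pi / 3)) := by
    apply eq_of_qParam (good_modularForm E₄)
    have : ((refl (up (2 * Real.pi / 3)) : ℍ) : ℂ)
      = -(starRingEnd ℂ) ((up (2 * Real.pi / 3) : ℍ) : ℂ) := rfl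
    rw [this, up_coe h0, ← hz, hconj]
    simp only [Function.Periodic.qParam, ofReal_one, div_one]
    rw [mul_add, mul_one, Complex.exp_add, Complex.exp_two_pi_mul_I, mul_one]
  have h3 := S_inv4 (up (2 * Real.pi / 3))
  rw [h1, h2, up_coe h0, ← hz] at h3
  have h4 : z ^ 4 = z := by linear_combination z * hz3
  rw [h4] at h3
  have h5 : (1 - z) * E₄ (up (2 * Real.pi / 3)) = 0 := by linear_combination h3
  have h6 : E₄ (up (2 * Real.pi / 3)) = 0 := by
    rcases mul_eq_zero.mp h5 with h | h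
    · exact absurd (sub_eq_zero.mp h).symm hz1
    · exact h
  unfold hh
  rw [h6, mul_zero]

/-! ### real parts -/

lemma real_of_conj {z : ℂ} (h : (starRingEnd ℂ) z = z) : z = (z.re : ℂ) :=
  (Complex.conj_eq_iff_re.mp h).symm

lemma hh_real {θ : ℝ} (h : 0 < Real.sin θ) : hh θ = ((hh θ).re : ℂ) := real_of_conj (hh_conj h)
lemma gg_real {θ : ℝ} (h : 0 < Real.sin θ) : gg θ = ((gg θ).re : ℂ) := real_of_conj (gg_conj h)
lemma dd_real {θ : ℝ} (h : 0 < Real.sin θ) : dd θ = ((dd θ).re : ℂ) := by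
  apply real_of_conj
  rw [dd_eq, map_div₀, map_sub, map_pow, map_pow, hh_conj h, gg_conj h, map_ofNat]

lemma re_deriv {f : ℝ → ℂ} {f' : ℂ} {θ : ℝ} (h : HasDerivAt f f' θ) :
    HasDerivAt (fun t => (f t).re) f'.re θ := by
  have := (Complex.reCLM.hasFDerivAt (x := f θ)).comp_hasDerivAt θ h
  exact this

lemma dd_half : (dd (Real.pi / 2)).re < 0 := by
  have h0 := sin_pos_of_mem half_mem
  have h1 : hh (Real.pi / 2) = -E₄ (up (Real.pi / 2)) := by
    unfold hh
    rw [pt_half, Complex.I_sq]; ring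
  have h2 : dd (Real.pi / 2) = (((hh (Real.pi / 2)).re ^ 3 / 1728 : ℝ) : ℂ) := by
    rw [dd_eq, gg_half]
    push_cast
    rw [← hh_real h0]
    ring
  rw [h2, Complex.ofReal_re, h1, Complex.neg_re]
  have := E4_half
  have h3 : 0 < (E₄ (up (Real.pi / 2))).re ^ 3 := by positivity
  have : (-(E₄ (up (Real.pi / 2))).re) ^ 3 = -((E₄ (up (Real.pi / 2))).re ^ 3) := by ring
  rw [this]
  linarith

lemma dd_neg {θ : ℝ} (h : θ ∈ Set.Icc (Real.pi / 2) (2 * Real.pi / 3)) : (dd θ).re < 0 := by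
  by_contra hc
  push Not at hc
  have hcont : ContinuousOn (fun t => (dd t).re) (Set.Icc (Real.pi / 2) θ) := by
    intro t ht
    have ht' : t ∈ Set.Icc (Real.pi / 2) (2 * Real.pi / 3) := ⟨ht.1, ht.2.trans h.2⟩
    exact (re_deriv (hasDerivAt_dd (sin_pos_of_mem ht'))).continuousAt.continuousWithinAt
  obtain ⟨t, ht, ht0⟩ := intermediate_value_Icc h.1 hcont ⟨dd_half.le, hc⟩
  have ht' : t ∈ Set.Icc (Real.pi / 2) (2 * Real.pi / 3) := ⟨ht.1, ht.2.trans h.2⟩
  have h1 := dd_real (sin_pos_of_mem ht')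
  have ht0' : (dd t).re = 0 := ht0
  rw [ht0', Complex.ofReal_zero] at h1
  exact dd_ne t h1

/-- `z³ E_6(z)` is nonnegative on the arc -/
lemma gg_nonneg {θ : ℝ} (h : θ ∈ Set.Icc (Real.pi / 2) (2 * Real.pi / 3)) : 0 ≤ (gg θ).re := by
  set w : ℝ → ℝ := fun t => Real.sqrt (-(dd t).re) with hw
  have hwpos : ∀ t ∈ Set.Icc (Real.pi / 2) (2 * Real.pi / 3), 0 < w t := fun t ht =>
    Real.sqrt_pos.mpr (by linarith [dd_neg ht])
  have hder : ∀ t ∈ Set.Icc (Real.pi / 2) (2 * Real.pi / 3),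
      HasDerivAt (fun t => (gg t).re / w t) (Real.pi * (hh t).re ^ 2 / w t) t := by
    intro t ht
    have hs := sin_pos_of_mem ht
    have h1 := re_deriv (hasDerivAt_gg hs)
    have h2 := re_deriv (hasDerivAt_dd hs)
    have e1 : (-Real.pi * rr t * gg t + Real.pi * hh t ^ 2 : ℂ).re
        = -Real.pi * (rr t).re * (gg t).re + Real.pi * (hh t).re ^ 2 := by
      rw [gg_real hs, hh_real hs]
      simp only [Complex.ofReal_re]
      rw [Complex.add_re, show (-(Real.pi : ℂ) * rr t * ((gg t).re : ℂ))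
        = ((-Real.pi * (gg t).re : ℝ) : ℂ) * rr t by push_cast; ring, Complex.re_ofReal_mul,
        show ((Real.pi : ℂ) * ((hh t).re : ℂ) ^ 2) = ((Real.pi * (hh t).re ^ 2 : ℝ) : ℂ) by
          push_cast; ring, Complex.ofReal_re]
      ring
    have e2 : (-(2 * Real.pi) * rr t * dd t : ℂ).re = -(2 * Real.pi) * (rr t).re * (dd t).re := by
      rw [dd_real hs]
      simp only [Complex.ofReal_re]
      rw [show (-(2 * (Real.pi : ℂ)) * rr t * ((dd t).re : ℂ))
        = ((-(2 * Real.pi) * (dd t).re : ℝ) : ℂ) * rr t by push_cast; ring, Complex.re_ofReal_mul]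
      ring
    rw [e1] at h1
    rw [e2] at h2
    have hneg : -(dd t).re ≠ 0 := by linarith [dd_neg ht] |> ne_of_gt
    have h3 := (h2.neg).sqrt hneg
    have hw0 := hwpos t ht
    have hww : w t ^ 2 = -(dd t).re := Real.sq_sqrt (by linarith [dd_neg ht])
    have h4 : HasDerivAt w (-Real.pi * (rr t).re * w t) t := by
      refine h3.congr_deriv ?_
      show (-(-(2 * Real.pi) * (rr t).re * (dd t).re)) / (2 * w t) = _
      have hdd : (dd t).re = -(w t ^ 2) := by linarith
      rw [hdd]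
      field_simp
    refine (h1.div h4 hw0.ne').congr_deriv ?_
    field_simp
    ring
  have hcont : ContinuousOn (fun t => (gg t).re / w t) (Set.Icc (Real.pi / 2) θ) := by
    intro t ht
    have ht' : t ∈ Set.Icc (Real.pi / 2) (2 * Real.pi / 3) := ⟨ht.1, ht.2.trans h.2⟩
    exact (hder t ht').continuousAt.continuousWithinAt
  have hmono : MonotoneOn (fun t => (gg t).re / w t) (Set.Icc (Real.pi / 2) θ) := by
    apply monotoneOn_of_deriv_nonneg (convex_Icc _ _) hcont
    · intro t ht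
      rw [interior_Icc] at ht
      have ht' : t ∈ Set.Icc (Real.pi / 2) (2 * Real.pi / 3) := ⟨ht.1.le, ht.2.le.trans h.2⟩
      exact (hder t ht').differentiableAt.differentiableWithinAt
    · intro t ht
      rw [interior_Icc] at ht
      have ht' : t ∈ Set.Icc (Real.pi / 2) (2 * Real.pi / 3) := ⟨ht.1.le, ht.2.le.trans h.2⟩
      rw [(hder t ht').deriv]
      have := hwpos t ht'
      have := Real.pi_pos
      positivity
  have h1 := hmono ⟨le_rfl, h.1⟩ ⟨h.1, le_rfl⟩ h.1
  simp only [gg_half, Complex.zero_re, zero_div] at h1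
  have h2 := hwpos θ h
  have h3 : (gg θ).re = (gg θ).re / w θ * w θ := by field_simp
  rw [h3]
  exact mul_nonneg h1 h2.le

/-- `j` is real with values in `[0, 1728]` on the arc -/
theorem jj_mem {θ : ℝ} (h : θ ∈ Set.Icc (Real.pi / 2) (2 * Real.pi / 3)) :
    ∃ x : ℝ, 0 ≤ x ∧ x ≤ 1728 ∧ jj θ = (x : ℂ) := by
  have hreal : ∀ t ∈ Set.Icc (Real.pi / 2) (2 * Real.pi / 3),
      jj t = (((hh t).re ^ 3 / (dd t).re : ℝ) : ℂ) := by
    intro t ht
    have hs := sin_pos_of_mem ht
    unfold jj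
    push_cast
    rw [← hh_real hs, ← dd_real hs]
  have hder : ∀ t ∈ Set.Icc (Real.pi / 2) (2 * Real.pi / 3),
      HasDerivAt (fun t => (jj t).re) (2 * Real.pi * (gg t).re * (hh t).re ^ 2 / (dd t).re) t := by
    intro t ht
    have hs := sin_pos_of_mem ht
    refine (re_deriv (hasDerivAt_jj hs)).congr_deriv ?_
    have : (2 * Real.pi * gg t * hh t ^ 2 / dd t : ℂ)
        = ((2 * Real.pi * (gg t).re * (hh t).re ^ 2 / (dd t).re : ℝ) : ℂ) := by
      push_cast
      rw [← gg_real hs, ← hh_real hs, ← dd_real hs]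
    rw [this, Complex.ofReal_re]
  have hcont : ContinuousOn (fun t => (jj t).re) (Set.Icc (Real.pi / 2) (2 * Real.pi / 3)) :=
    fun t ht => (hder t ht).continuousAt.continuousWithinAt
  have hanti : AntitoneOn (fun t => (jj t).re) (Set.Icc (Real.pi / 2) (2 * Real.pi / 3)) := by
    apply antitoneOn_of_deriv_nonpos (convex_Icc _ _) hcont
    · intro t ht
      exact (hder t (interior_subset ht)).differentiableAt.differentiableWithinAt
    · intro t ht
      have ht' := interior_subset ht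
      rw [(hder t ht').deriv]
      have h1 := dd_neg ht'
      have h2 := gg_nonneg ht'
      have := Real.pi_pos
      apply div_nonpos_of_nonneg_of_nonpos
      · positivity
      · exact h1.le
  have h1 := hanti h ⟨by linarith [Real.pi_pos], le_rfl⟩ h.2
  have h2 : (jj (2 * Real.pi / 3)).re = 0 := by
    unfold jj
    rw [hh_third]
    simp
  have h3 : 0 ≤ (jj θ).re := by
    have : (jj (2 * Real.pi / 3)).re ≤ (jj θ).re := h1
    linarith
  refine ⟨(jj θ).re, h3, ?_, ?_⟩
  · have hs := sin_pos_of_mem h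
    have e : jj θ = (((gg θ).re ^ 2 / (dd θ).re + 1728 : ℝ) : ℂ) := by
      rw [jj_eq]
      push_cast
      rw [← gg_real hs, ← dd_real hs]
    rw [e, Complex.ofReal_re]
    have := div_nonpos_of_nonneg_of_nonpos (sq_nonneg (gg θ).re) (dd_neg h).le
    linarith
  · rw [hreal θ h, Complex.ofReal_re]

end Q262.Miller
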