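import Mathlib

/-!
Miller basis forms and Faber polynomials for the full modular group.
-/

set_option autoImplicit false

open UpperHalfPlane hiding I
open EisensteinSeries ModularForm MatrixGroups Polynomial

namespace Q262.Miller

/-- The possible values of `k'` in `k = 12ℓ + k'`. -/
def residues : Finset ℕ := {0, 4, 6, 8, 10, 14}

/-- The Eisenstein series `E_{k'}` for `k' ∈ {0, 4, 6, 8, 10, 14}`: `E_0 = 1`, `E_8 = E_4²`,
`E_10 = E_4 E_6`, `E_14 = E_4² E_6`. -/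
noncomputable def Ek (k' : ℕ) (τ : ℍ) : ℂ :=
  if k' = 0 then 1
  else if k' = 4 then E₄ τ
  else if k' = 6 then E₆ τ
  else if k' = 8 then E₄ τ ^ 2
  else if k' = 10 then E₄ τ * E₆ τ
  else E₄ τ ^ 2 * E₆ τ

/-- The `j`-invariant `j = E_4³ / Δ`. -/
noncomputable def jInv (τ : ℍ) : ℂ := E₄ τ ^ 3 / discriminant τ

/-- `f ∈ M_k`, `k = 12ℓ + k'`, is the Miller basis form `f_{k,m} = q^m + O(q^{ℓ+1})`. -/
def IsMiller (l k' m : ℕ) (f : ModularForm 𝒮ℒ ((12 * l + k' : ℕ) : ℤ)) : Prop :=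
  ∀ n ≤ l, (qExpansion 1 f).coeff n = if n = m then 1 else 0

/-- `F` is the Faber polynomial `F_{k,m}`, `k = 12ℓ + k'`: it is monic of degree `ℓ - m` and
`f_{k,m} = Δ^ℓ E_{k'} F(j)`. -/
def IsFaber (l k' m : ℕ) (F : ℂ[X]) : Prop :=
  F.Monic ∧ F.natDegree = l - m ∧
    ∃ f : ModularForm 𝒮ℒ ((12 * l + k' : ℕ) : ℤ), IsMiller l k' m f ∧
      ∀ τ : ℍ, f τ = discriminant τ ^ l * Ek k' τ * F.eval (jInv τ)

end Q262.Miller
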