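import Pool.Agent.Q262.Miller.Main

/-!
Existence of Faber polynomials and the final theorem.
-/

set_option autoImplicit false

open UpperHalfPlane hiding I
open EisensteinSeries ModularForm MatrixGroups Polynomial
open scoped ComplexOrder

namespace Q262.Miller

/-! ### `q`-expansions of combinations -/

lemma an_one : An (1 : ℍ → ℂ) := by
  have := an_form (1 : ModularForm 𝒮ℒ 0)
  simpa using this

lemma an_zero : An (0 : ℍ → ℂ) := by
  have := an_form (0 : ModularForm 𝒮ℒ 0)
  simpa using this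

lemma an_pow {f : ℍ → ℂ} (hf : An f) (n : ℕ) : An (f ^ n) := by
  induction n with
  | zero => rw [pow_zero]; exact an_one
  | succ n ih => rw [pow_succ]; exact ih.mul hf

lemma q_pow {f : ℍ → ℂ} (hf : An f) (n : ℕ) : qExpansion 1 (f ^ n) = (qExpansion 1 f) ^ n := by
  induction n with
  | zero => rw [pow_zero, pow_zero]; exact qExpansion_one 1
  | succ n ih => rw [pow_succ, pow_succ, UpperHalfPlane.qExpansion_mul (an_pow hf n) hf, ih]

lemma an_sum {ι : Type*} (s : Finset ι) {f : ι → ℍ → ℂ} (hf : ∀ i ∈ s, An (f i)) :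
    An (∑ i ∈ s, f i) ∧ qExpansion 1 (∑ i ∈ s, f i) = ∑ i ∈ s, qExpansion 1 (f i) := by
  classical
  induction s using Finset.induction_on with
  | empty =>
    rw [Finset.sum_empty, Finset.sum_empty]
    exact ⟨an_zero, qExpansion_zero 1⟩
  | insert a s ha ih =>
    obtain ⟨h1, h2⟩ := ih (fun i hi => hf i (Finset.mem_insert_of_mem hi))
    have h3 := hf a (Finset.mem_insert_self a s)
    rw [Finset.sum_insert ha, Finset.sum_insert ha]
    exact ⟨h3.add h1, by rw [UpperHalfPlane.qExpansion_add h3 h1, h2]⟩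

lemma an_disc : An discriminant :=
  ModularFormClass.analyticAt_cuspFunction_zero CuspForm.discriminant one_pos
    one_mem_strictPeriods_SL

lemma q_combo {l N : ℕ} (hN : N ≤ l) {A G : ℍ → ℂ} (hA : An A) (hG : An G) (c : ℕ → ℂ)
    (f : ℍ → ℂ) (hf : ∀ τ, f τ = discriminant τ ^ l * A τ *
      ∑ i ∈ Finset.range (N + 1), c i * (G τ / discriminant τ) ^ i) :
    qExpansion 1 f = ∑ i ∈ Finset.range (N + 1), PowerSeries.C (c i) *
      (qExpansion 1 A * qD ^ (l - i) * (qExpansion 1 G) ^ i) := by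
  have h1 : f = ∑ i ∈ Finset.range (N + 1), c i • (A * discriminant ^ (l - i) * G ^ i) := by
    funext τ
    rw [hf τ, Finset.mul_sum, Finset.sum_apply]
    apply Finset.sum_congr rfl
    intro i hi
    have hi' : i ≤ l := by have := Finset.mem_range.mp hi; omega
    simp only [Pi.smul_apply, Pi.mul_apply, Pi.pow_apply, smul_eq_mul]
    have h0 := discriminant_ne_zero τ
    obtain ⟨t, rfl⟩ : ∃ t, l = i + t := ⟨l - i, by omega⟩
    rw [Nat.add_sub_cancel_left, div_pow, pow_add]
    field_simp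
  have hAn : ∀ i, An (A * discriminant ^ (l - i) * G ^ i) := fun i =>
    (hA.mul (an_pow an_disc _)).mul (an_pow hG i)
  rw [h1, (an_sum _ (fun i _ => (hAn i).smul (c i))).2]
  apply Finset.sum_congr rfl
  intro i _
  rw [UpperHalfPlane.qExpansion_smul (hAn i), UpperHalfPlane.qExpansion_mul
    (hA.mul (an_pow an_disc _)) (an_pow hG i), UpperHalfPlane.qExpansion_mul hA
    (an_pow an_disc _), q_pow an_disc, q_pow hG, PowerSeries.smul_eq_C_mul]
  rfl

/-! ### the Eisenstein series `E_{k'}` -/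

lemma Ek_form {k' : ℕ} (hk : k' ∈ residues) :
    ∃ e : ModularForm 𝒮ℒ (k' : ℤ), ∀ τ, e τ = Ek k' τ := by
  have h : k' = 0 ∨ k' = 4 ∨ k' = 6 ∨ k' = 8 ∨ k' = 10 ∨ k' = 14 := by
    simpa [residues] using hk
  rcases h with rfl | rfl | rfl | rfl | rfl | rfl
  · exact ⟨ModularForm.mcast (by norm_num) (1 : ModularForm 𝒮ℒ 0), fun τ => by simp [Ek]⟩
  · exact ⟨ModularForm.mcast (by norm_num) E₄, fun τ => by simp [Ek]⟩
  · exact ⟨ModularForm.mcast (by norm_num) E₆, fun τ => by simp [Ek]⟩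
  · refine ⟨ModularForm.mcast (by norm_num) (E₄.pow 2), fun τ => ?_⟩
    simp only [ModularForm.mcast_apply, ModularForm.coe_pow, Pi.pow_apply]
    simp [Ek]
  · refine ⟨ModularForm.mcast (by norm_num) (E₄.mul E₆), fun τ => ?_⟩
    simp only [ModularForm.mcast_apply, ModularForm.coe_mul, Pi.mul_apply]
    simp [Ek]
  · refine ⟨ModularForm.mcast (by norm_num) ((E₄.pow 2).mul E₆), fun τ => ?_⟩
    simp only [ModularForm.mcast_apply, ModularForm.coe_mul, ModularForm.coe_pow, Pi.mul_apply,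
      Pi.pow_apply]
    simp [Ek]

lemma Ek_an {k' : ℕ} (hk : k' ∈ residues) : An (Ek k') := by
  obtain ⟨e, he⟩ := Ek_form hk
  have : Ek k' = (e : ℍ → ℂ) := by funext τ; exact (he τ).symm
  rw [this]
  exact an_form e

/-- `E_{k'} E_{14-k'} = E_4² E_6` -/
lemma Ek_compl {k' : ℕ} (hk : k' ∈ residues) :
    ∃ B : PowerSeries ℂ, qExpansion 1 (Ek k') * B = qP ^ 2 * qR ∧
      ∃ a b : ℕ, b ≤ 1 ∧ B = qP ^ a * qR ^ b := by
  have h : k' = 0 ∨ k' = 4 ∨ k' = 6 ∨ k' = 8 ∨ k' = 10 ∨ k' = 14 := by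
    simpa [residues] using hk
  have e4 : qExpansion 1 (E₄ : ℍ → ℂ) = qP := rfl
  have e6 : qExpansion 1 (E₆ : ℍ → ℂ) = qR := rfl
  rcases h with rfl | rfl | rfl | rfl | rfl | rfl
  · refine ⟨qP ^ 2 * qR, ?_, 2, 1, le_rfl, by ring⟩
    have : Ek 0 = (1 : ℍ → ℂ) := by funext τ; simp [Ek]
    rw [this, qExpansion_one, one_mul]
  · refine ⟨qP * qR, ?_, 1, 1, le_rfl, by ring⟩
    have : Ek 4 = (E₄ : ℍ → ℂ) := by funext τ; simp [Ek]
    rw [this, e4]; ring
  · refine ⟨qP ^ 2, ?_, 2, 0, by norm_num, by ring⟩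
    have : Ek 6 = (E₆ : ℍ → ℂ) := by funext τ; simp [Ek]
    rw [this, e6]; ring
  · refine ⟨qR, ?_, 0, 1, le_rfl, by ring⟩
    have : Ek 8 = (E₄ : ℍ → ℂ) ^ 2 := by funext τ; simp [Ek]
    rw [this, q_pow an_E4, e4]
  · refine ⟨qP, ?_, 1, 0, by norm_num, by ring⟩
    have : Ek 10 = (E₄ : ℍ → ℂ) * (E₆ : ℍ → ℂ) := by funext τ; simp [Ek]
    rw [this, UpperHalfPlane.qExpansion_mul an_E4 an_E6, e4, e6]; ring
  · refine ⟨1, ?_, 0, 0, by norm_num, by ring⟩
    have : Ek 14 = (E₄ : ℍ → ℂ) ^ 2 * (E₆ : ℍ → ℂ) := by funext τ; simp [Ek]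
    rw [this, UpperHalfPlane.qExpansion_mul (an_pow an_E4 2) an_E6, q_pow an_E4, e4, e6, mul_one]

lemma Ek_const {k' : ℕ} (hk : k' ∈ residues) :
    PowerSeries.constantCoeff (qExpansion 1 (Ek k')) = 1 := by
  obtain ⟨B, hB, a, b, _, hab⟩ := Ek_compl hk
  have h1 := congrArg (PowerSeries.constantCoeff (R := ℂ)) hB
  have hP : PowerSeries.constantCoeff qP = 1 := data.P0
  have hR : PowerSeries.constantCoeff qR = 1 := data.R0
  rw [hab] at h1
  simp only [map_mul, map_pow, hP, hR, one_pow, mul_one] at h1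
  exact h1

/-! ### expansion in powers of `j` -/

/-- the series `w_s` of the triangular system -/
noncomputable def ww (l k' s : ℕ) : PowerSeries ℂ :=
  qExpansion 1 (Ek k') * qd ^ s * (qP ^ 3) ^ (l - s)

lemma ww_const (l : ℕ) {k' : ℕ} (hk : k' ∈ residues) (s : ℕ) :
    PowerSeries.constantCoeff (ww l k' s) = 1 := by
  unfold ww
  have hP : PowerSeries.constantCoeff qP = 1 := data.P0
  have hd : PowerSeries.constantCoeff qd = 1 := data.dl0
  simp [Ek_const hk, hP, hd]

/-- the `q`-expansion of `Δ^ℓ E_{k'} F(j)` as a triangular sum -/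
lemma q_tri (l : ℕ) {k' : ℕ} (hk : k' ∈ residues) (F : ℂ[X]) (hF : F.natDegree ≤ l) (f : ℍ → ℂ)
    (hf : ∀ τ, f τ = discriminant τ ^ l * Ek k' τ * F.eval (jInv τ)) :
    qExpansion 1 f = ∑ s ∈ Finset.range (l + 1), PowerSeries.C (F.coeff (l - s)) *
      (PowerSeries.X ^ s * ww l k' s) := by
  have h1 := q_combo (l := l) (N := l) le_rfl (Ek_an hk) (an_pow an_E4 3) (fun i => F.coeff i) f
    (by
      intro τ
      rw [hf τ, Polynomial.eval_eq_sum_range' (n := l + 1) (by omega)]
      rfl)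
  rw [h1, ← Finset.sum_range_reflect]
  apply Finset.sum_congr rfl
  intro s hs
  have hs' : s ≤ l := by have := Finset.mem_range.mp hs; omega
  have e1 : l + 1 - 1 - s = l - s := by omega
  have e2 : l - (l - s) = s := by omega
  rw [e1, e2, q_pow an_E4]
  unfold ww
  rw [← qD_eq_X_mul, mul_pow]
  have e3 : qExpansion 1 (E₄ : ℍ → ℂ) = qP := rfl
  rw [e3]
  ring

lemma form_exists {l k' i : ℕ} (hk : k' ∈ residues) (hi : i ≤ l) :
    ∃ g : ModularForm 𝒮ℒ ((12 * l + k' : ℕ) : ℤ),
      ∀ τ, g τ = discriminant τ ^ l * Ek k' τ * jInv τ ^ i := by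
  obtain ⟨e, he⟩ := Ek_form hk
  refine ⟨ModularForm.mcast ?_ (((CuspForm.discriminant : ModularForm 𝒮ℒ 12).pow (l - i)).mul
    (e.mul (E₄.pow (3 * i)))), ?_⟩
  · push_cast [Nat.cast_sub hi]
    ring
  · intro τ
    rw [ModularForm.mcast_apply]
    simp only [ModularForm.coe_mul, ModularForm.coe_pow, Pi.mul_apply, Pi.pow_apply, he]
    have h0 := discriminant_ne_zero τ
    obtain ⟨t, rfl⟩ : ∃ t, l = i + t := ⟨l - i, by omega⟩
    rw [Nat.add_sub_cancel_left]
    unfold jInv
    have e1 : (CuspForm.discriminant : ModularForm 𝒮ℒ 12) τ = discriminant τ := rfl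
    rw [e1, div_pow, ← pow_mul, pow_add]
    field_simp

lemma form_of_poly {l k' : ℕ} (hk : k' ∈ residues) (c : ℕ → ℂ) :
    ∃ g : ModularForm 𝒮ℒ ((12 * l + k' : ℕ) : ℤ),
      ∀ τ, g τ = discriminant τ ^ l * Ek k' τ * ∑ i ∈ Finset.range (l + 1), c i * jInv τ ^ i := by
  choose! g hg using fun i (hi : i ≤ l) => form_exists (l := l) (i := i) hk hi
  refine ⟨∑ i ∈ Finset.range (l + 1), c i • g i, ?_⟩
  intro τ
  rw [Finset.mul_sum]
  have h1 : ∀ s : Finset ℕ, (∑ i ∈ s, c i • g i : ModularForm 𝒮ℒ ((12 * l + k' : ℕ) : ℤ)) τ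
      = ∑ i ∈ s, c i * g i τ := by
    intro s
    induction s using Finset.induction_on with
    | empty => simp
    | insert a s ha ih =>
      rw [Finset.sum_insert ha, Finset.sum_insert ha, ← ih]
      simp
  rw [h1]
  apply Finset.sum_congr rfl
  intro i hi
  have hi' : i ≤ l := by have := Finset.mem_range.mp hi; omega
  rw [hg i hi' τ]
  ring

lemma faber_exists {l k' m : ℕ} (hk : k' ∈ residues) (hm : m ≤ l) :
    ∃ F : ℂ[X], IsFaber l k' m F := by
  set T : ℕ → ℂ := fun n => if n = m then 1 else 0 with hT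
  set b : ℕ → ℂ := solve T (fun s t => PowerSeries.coeff t (ww l k' s)) with hb
  set F : ℂ[X] := ∑ i ∈ Finset.range (l + 1), Polynomial.C (b (l - i)) * Polynomial.X ^ i with hF
  have hcoeff : ∀ i ≤ l, F.coeff i = b (l - i) := by
    intro i hi
    rw [hF, Polynomial.finsetSum_coeff]
    simp only [Polynomial.coeff_C_mul, Polynomial.coeff_X_pow]
    rw [Finset.sum_eq_single i]
    · simp
    · intro j _ hj
      rw [if_neg (fun h => hj h.symm), mul_zero]
    · intro h; exact absurd (Finset.mem_range.mpr (by omega)) h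
  have hdeg : F.natDegree ≤ l := by
    rw [hF]
    apply Polynomial.natDegree_sum_le_of_forall_le
    intro i hi
    have := Finset.mem_range.mp hi
    exact (Polynomial.natDegree_C_mul_X_pow_le _ _).trans (by omega)
  have heval : ∀ z : ℂ, F.eval z = ∑ i ∈ Finset.range (l + 1), b (l - i) * z ^ i := by
    intro z
    rw [hF, Polynomial.eval_finsetSum]
    simp
  obtain ⟨f, hf⟩ := form_of_poly (l := l) hk (fun i => b (l - i))
  have hf' : ∀ τ, f τ = discriminant τ ^ l * Ek k' τ * F.eval (jInv τ) := by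
    intro τ; rw [hf τ, heval]
  have hq := q_tri l hk F hdeg f hf'
  have hq2 : qExpansion 1 f = ∑ s ∈ Finset.range (l + 1), PowerSeries.C (b s) *
      (PowerSeries.X ^ s * ww l k' s) := by
    rw [hq]
    apply Finset.sum_congr rfl
    intro s hs
    have hs' : s ≤ l := by have := Finset.mem_range.mp hs; omega
    rw [hcoeff (l - s) (by omega)]
    congr 3
    omega
  have hmil : IsMiller l k' m f := by
    intro n hn
    rw [hq2, coeff_tri l b _ (ww_const l hk) n hn, hb, solve_eq]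
    simp [hT]
  have hb0 : ∀ n ≤ l, n < m → b n = 0 := by
    apply tri_unique l b _ (ww_const l hk) m
    intro n hn hnm
    rw [← hq2, hmil n hn, if_neg (by omega)]
  have hbm : b m = 1 := by
    have h1 := hmil m hm
    rw [hq2, coeff_tri l b _ (ww_const l hk) m hm, if_pos rfl] at h1
    have h2 : ∑ s ∈ Finset.range m, b s * PowerSeries.coeff (m - s) (ww l k' s) = 0 := by
      apply Finset.sum_eq_zero
      intro s hs
      have hs' := Finset.mem_range.mp hs
      rw [hb0 s (by omega) hs', zero_mul]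
    rwa [h2, add_zero] at h1
  have hnat : F.natDegree ≤ l - m := by
    rw [Polynomial.natDegree_le_iff_coeff_eq_zero]
    intro i hi
    rcases Nat.lt_or_ge l i with h | h
    · exact Polynomial.coeff_eq_zero_of_natDegree_lt (by omega)
    · rw [hcoeff i h]
      exact hb0 _ (by omega) (by omega)
  have hlead : F.coeff (l - m) = 1 := by
    rw [hcoeff (l - m) (by omega)]
    have : l - (l - m) = m := by omega
    rw [this, hbm]
  have hnat2 : F.natDegree = l - m := by
    apply le_antisymm hnat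
    apply Polynomial.le_natDegree_of_ne_zero
    rw [hlead]; exact one_ne_zero
  refine ⟨F, ?_, hnat2, f, hmil, hf'⟩
  show F.leadingCoeff = 1
  rw [Polynomial.leadingCoeff, hnat2, hlead]

lemma faber_unique {l k' m : ℕ} (hk : k' ∈ residues) {F G : ℂ[X]}
    (hF : IsFaber l k' m F) (hG : IsFaber l k' m G) : F = G := by
  obtain ⟨hF1, hF2, f, hf, hfF⟩ := hF
  obtain ⟨hG1, hG2, g, hg, hgG⟩ := hG
  have hfg := miller_unique hk hf hg
  subst hfg
  have h0 : ∀ τ, (0 : ℍ → ℂ) τ = discriminant τ ^ l * Ek k' τ * (F - G).eval (jInv τ) := by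
    intro τ
    rw [Polynomial.eval_sub, mul_sub, ← hfF, ← hgG, sub_self]
    rfl
  have hdeg : (F - G).natDegree ≤ l := by
    apply (Polynomial.natDegree_sub_le F G).trans
    rw [hF2, hG2]
    simp
  have hq := q_tri l hk (F - G) hdeg 0 h0
  rw [qExpansion_zero] at hq
  have hz := tri_unique l (fun s => (F - G).coeff (l - s)) _ (ww_const l hk) (l + 1)
    (by intro n hn _; rw [← hq]; simp)
  rw [← sub_eq_zero]
  ext i
  rw [Polynomial.coeff_zero]
  rcases Nat.lt_or_ge l i with h | h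
  · exact Polynomial.coeff_eq_zero_of_natDegree_lt (by omega)
  · have := hz (l - i) (by omega) (by omega)
    have e : l - (l - i) = i := by omega
    simpa only [e] using this

/-! ### positivity -/

lemma j_sub (τ : ℍ) : jInv τ = (E₆ τ ^ 2) / discriminant τ + 1728 := by
  have h0 := discriminant_ne_zero τ
  have h1 := discriminant_eq_E₄_cube_sub_E₆_sq τ
  unfold jInv
  rw [div_add' _ _ _ h0]
  congr 1
  rw [h1]
  ring

theorem faber_coeff_pos {l k' m : ℕ} (hk : k' ∈ residues) (hm : m ≤ l) {F : ℂ[X]}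
    (hF : IsFaber l k' m F) (i : ℕ) (hi : i ≤ l - m) :
    0 < (F.comp (Polynomial.X + Polynomial.C 1728)).coeff i := by
  obtain ⟨hF1, hF2, f, hf, hfF⟩ := hF
  set H := F.comp (Polynomial.X + Polynomial.C 1728) with hH
  have hHdeg : H.natDegree ≤ l - m := by
    rw [hH, Polynomial.natDegree_comp, hF2, Polynomial.natDegree_X_add_C, mul_one]
  obtain ⟨B, hAB, hB⟩ := Ek_compl hk
  have h1 := q_combo (l := l) (N := l - m) (by omega) (Ek_an hk) (an_pow an_E6 2)
    (fun i => H.coeff i) f (by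
      intro τ
      rw [hfF τ]
      congr 1
      have e1 : F.eval (jInv τ) = H.eval ((E₆ τ ^ 2) / discriminant τ) := by
        rw [hH, Polynomial.eval_comp, j_sub τ]
        simp
      rw [e1, Polynomial.eval_eq_sum_range' (n := l - m + 1) (by omega)]
      rfl)
  have h2 : qExpansion 1 f = ∑ i ∈ Finset.range (l - m + 1), PowerSeries.C (H.coeff i) *
      (qExpansion 1 (Ek k') * (PowerSeries.X * data.dl) ^ (l - i) * data.R ^ (2 * i)) := by
    rw [h1]
    apply Finset.sum_congr rfl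
    intro i _
    have e3 : qExpansion 1 (E₆ : ℍ → ℂ) = qR := rfl
    rw [q_pow an_E6, e3, ← pow_mul, ← qD_eq_X_mul]
    rfl
  exact coeff_pos signs _ B hAB hB l m hm (fun i => H.coeff i) (qExpansion 1 f) hf h2 i hi

theorem faber_pos {l k' m : ℕ} (hk : k' ∈ residues) (hm : m ≤ l) {F : ℂ[X]}
    (hF : IsFaber l k' m F) (x : ℝ) (hx : 1728 ≤ x) : F.eval (x : ℂ) ≠ 0 := by
  set H := F.comp (Polynomial.X + Polynomial.C 1728) with hH
  have hHdeg : H.natDegree ≤ l - m := by
    rw [hH, Polynomial.natDegree_comp, hF.2.1, Polynomial.natDegree_X_add_C, mul_one]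
  have e1 : F.eval (x : ℂ) = H.eval ((x - 1728 : ℝ) : ℂ) := by
    rw [hH, Polynomial.eval_comp]
    simp
  have hpos : 0 < F.eval (x : ℂ) := by
    rw [e1, Polynomial.eval_eq_sum_range' (n := l - m + 1) (by omega)]
    have hnn : (0 : ℂ) ≤ ((x - 1728 : ℝ) : ℂ) := Complex.zero_le_real.mpr (by linarith)
    apply Finset.sum_pos'
    · intro i hi
      have hi' : i ≤ l - m := by have := Finset.mem_range.mp hi; omega
      exact mul_nonneg (faber_coeff_pos hk hm hF i hi').le (pow_nonneg hnn i)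
    · refine ⟨0, Finset.mem_range.mpr (by omega), ?_⟩
      rw [pow_zero, mul_one]
      exact faber_coeff_pos hk hm hF 0 (by omega)
  exact hpos.ne'

end Q262.Miller
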