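import Mathlib

/-!
Formal power series part of the argument: the coefficient formula and positivity.
-/

set_option autoImplicit false

open PowerSeries

namespace Q262.Miller

/-- `q d/dq` on power series. -/
noncomputable def th (f : ℂ⟦X⟧) : ℂ⟦X⟧ := X * d⁄dX ℂ f

lemma coeff_th (f : ℂ⟦X⟧) (n : ℕ) : coeff n (th f) = n * coeff n f := by
  unfold th
  cases n with
  | zero => simp
  | succ n => rw [coeff_succ_X_mul, coeff_derivative]; push_cast; ring

lemma th_mul (f g : ℂ⟦X⟧) : th (f * g) = th f * g + f * th g := by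
  unfold th
  rw [Derivation.leibniz, smul_eq_mul, smul_eq_mul]
  ring

lemma th_pow (f : ℂ⟦X⟧) (n : ℕ) : th (f ^ n) = n * f ^ (n - 1) * th f := by
  unfold th
  rw [Derivation.leibniz_pow, smul_eq_mul, nsmul_eq_mul]
  ring

lemma th_X : th (X : ℂ⟦X⟧) = X := by
  unfold th
  rw [derivative_X, mul_one]

lemma th_one : th (1 : ℂ⟦X⟧) = 0 := by
  unfold th
  simp

/-- The data: power series `P = E_4`, `R = E_6`, `E = E_2`, `Δ = X δ` with Ramanujan's
differential equations. -/
structure Data where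
  P : ℂ⟦X⟧
  R : ℂ⟦X⟧
  E : ℂ⟦X⟧
  dl : ℂ⟦X⟧
  P0 : constantCoeff P = 1
  R0 : constantCoeff R = 1
  dl0 : constantCoeff dl = 1
  hR : 2 * th R = E * R - P ^ 2
  hD : th (X * dl) = E * (X * dl)

namespace Data

variable (d : Data)

/-- The inverse of `δ`. -/
noncomputable def V : ℂ⟦X⟧ := d.dl⁻¹

/-- The inverse of `E_6`. -/
noncomputable def I : ℂ⟦X⟧ := d.R⁻¹

lemma dl_V : d.dl * d.V = 1 := PowerSeries.mul_inv_cancel _ (by rw [d.dl0]; exact one_ne_zero)

lemma R_I : d.R * d.I = 1 := PowerSeries.mul_inv_cancel _ (by rw [d.R0]; exact one_ne_zero)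

lemma V0 : constantCoeff d.V = 1 := by
  have := congrArg (constantCoeff (R := ℂ)) d.dl_V
  rw [map_mul, d.dl0, map_one, one_mul] at this
  exact this

lemma I0 : constantCoeff d.I = 1 := by
  have := congrArg (constantCoeff (R := ℂ)) d.R_I
  rw [map_mul, d.R0, map_one, one_mul] at this
  exact this

lemma th_dl : th d.dl = (d.E - 1) * d.dl := by
  have h := d.hD
  rw [th_mul, th_X] at h
  have hX : (X : ℂ⟦X⟧) ≠ 0 := X_ne_zero
  apply mul_left_cancel₀ hX
  linear_combination h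

lemma th_V : th d.V = (1 - d.E) * d.V := by
  have h1 : th (d.dl * d.V) = 0 := by rw [d.dl_V, th_one]
  rw [th_mul, d.th_dl] at h1
  have h2 := d.dl_V
  linear_combination d.V * h1 - ((d.E - 1) * d.V + th d.V) * h2

/-- `U = E_6² / δ`. -/
noncomputable def U : ℂ⟦X⟧ := d.R ^ 2 * d.V

lemma th_U : d.P ^ 2 * d.R * d.V = d.U - th d.U := by
  unfold U
  rw [th_mul, th_pow, d.th_V]
  have := d.hR
  simp only [Nat.add_one_sub_one, pow_one, Nat.cast_ofNat]
  linear_combination (d.R * d.V) * this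

lemma coeff_key (n : ℕ) (hn : 1 ≤ n) :
    coeff n (d.P ^ 2 * d.R * (d.R ^ 2) ^ (n - 1) * d.V ^ n) = 0 := by
  have h1 : d.P ^ 2 * d.R * (d.R ^ 2) ^ (n - 1) * d.V ^ n
      = d.U ^ n - d.U ^ (n - 1) * th d.U := by
    obtain ⟨m, rfl⟩ : ∃ m, n = m + 1 := ⟨n - 1, by omega⟩
    have h := d.th_U
    have e : d.U ^ m = (d.R ^ 2) ^ m * d.V ^ m := by unfold U; rw [mul_pow]
    simp only [Nat.add_sub_cancel]
    calc d.P ^ 2 * d.R * (d.R ^ 2) ^ m * d.V ^ (m + 1)
        = (d.P ^ 2 * d.R * d.V) * ((d.R ^ 2) ^ m * d.V ^ m) := by ring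
      _ = (d.U - th d.U) * d.U ^ m := by rw [h, e]
      _ = d.U ^ (m + 1) - d.U ^ m * th d.U := by ring
  have h2 : (n : ℂ) * coeff n (d.U ^ (n - 1) * th d.U) = coeff n (th (d.U ^ n)) := by
    rw [th_pow]
    have : (n : ℂ⟦X⟧) * d.U ^ (n - 1) * th d.U = (n : ℂ) • (d.U ^ (n - 1) * th d.U) := by
      rw [mul_assoc, ← nsmul_eq_mul, Nat.cast_smul_eq_nsmul]
    rw [this, coeff_smul, smul_eq_mul]
  rw [coeff_th] at h2
  have hn0 : (n : ℂ) ≠ 0 := by exact_mod_cast (by omega : n ≠ 0)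
  have h3 := mul_left_cancel₀ hn0 h2
  rw [h1, map_sub, h3, sub_self]

/-- The coefficient formula. `A` and `B` are the series of `E_{k'}` and `E_{14-k'}`. -/
theorem coeff_formula (A B : ℂ⟦X⟧) (hAB : A * B = d.P ^ 2 * d.R) (l m : ℕ) (hm : m ≤ l)
    (c : ℕ → ℂ) (f : ℂ⟦X⟧) (hf : ∀ n ≤ l, coeff n f = if n = m then 1 else 0)
    (hc : f = ∑ i ∈ Finset.range (l - m + 1), C (c i) * (A * (X * d.dl) ^ (l - i) * d.R ^ (2 * i)))
    (i0 : ℕ) (hi0 : i0 ≤ l - m) :
    c i0 = coeff (l - i0 - m) (B * d.I ^ (2 * i0 + 2) * d.V ^ (l - i0)) := by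
  set W := B * d.I ^ (2 * i0 + 2) * d.V ^ (l - i0) with hW
  have hRI : ∀ s, d.R ^ s * d.I ^ s = 1 := fun s => by rw [← mul_pow, d.R_I, one_pow]
  have hdV : ∀ s, d.dl ^ s * d.V ^ s = 1 := fun s => by rw [← mul_pow, d.dl_V, one_pow]
  have hP0 : constantCoeff d.P = 1 := d.P0
  have hR0 : constantCoeff d.R = 1 := d.R0
  have hI0 : constantCoeff d.I = 1 := d.I0
  -- the right side
  have hright : coeff (l - i0) (f * W) = coeff (l - i0 - m) W := by
    have hfm : ∃ g, f = X ^ m + X ^ (l + 1) * g := by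
      have : X ^ (l + 1) ∣ f - X ^ m := by
        rw [X_pow_dvd_iff]
        intro n hn
        rw [map_sub, coeff_X_pow, hf n (by omega), sub_self]
      obtain ⟨g, hg⟩ := this
      exact ⟨g, by rw [← hg]; ring⟩
    obtain ⟨g, hg⟩ := hfm
    rw [hg, add_mul, map_add, coeff_X_pow_mul', if_pos (by omega), mul_assoc, coeff_X_pow_mul',
      if_neg (by omega), add_zero]
  -- the left side
  have hleft : coeff (l - i0) (f * W) = c i0 := by
    rw [hc, Finset.sum_mul, map_sum]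
    rw [Finset.sum_eq_single i0]
    · have e : C (c i0) * (A * (X * d.dl) ^ (l - i0) * d.R ^ (2 * i0)) * W
          = C (c i0) * (X ^ (l - i0) * (d.P ^ 2 * d.R * d.I ^ 2)) := by
        rw [hW, mul_pow]
        have h1 := hRI (2 * i0)
        have h2 := hdV (l - i0)
        calc C (c i0) * (A * (X ^ (l - i0) * d.dl ^ (l - i0)) * d.R ^ (2 * i0)) *
              (B * d.I ^ (2 * i0 + 2) * d.V ^ (l - i0))
            = C (c i0) * (X ^ (l - i0) * ((A * B) * d.I ^ 2)) *
                (d.R ^ (2 * i0) * d.I ^ (2 * i0)) * (d.dl ^ (l - i0) * d.V ^ (l - i0)) := by ring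
          _ = _ := by rw [h1, h2, hAB]; ring
      rw [e, coeff_C_mul, coeff_X_pow_mul', if_pos le_rfl, Nat.sub_self,
        coeff_zero_eq_constantCoeff]
      simp [hP0, hR0, hI0]
    · intro i hi hne
      have hi' : i ≤ l - m := by have := Finset.mem_range.mp hi; omega
      have e0 : C (c i) * (A * (X * d.dl) ^ (l - i) * d.R ^ (2 * i)) * W
          = C (c i) * (X ^ (l - i) * (A * d.dl ^ (l - i) * d.R ^ (2 * i) * W)) := by
        rw [mul_pow]; ring
      rw [e0, coeff_C_mul, coeff_X_pow_mul']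
      rcases lt_or_gt_of_ne hne with h | h
      · rw [if_neg (by omega), mul_zero]
      · rw [if_pos (by omega)]
        obtain ⟨n, rfl⟩ : ∃ n, i = i0 + n := ⟨i - i0, by omega⟩
        have hn : 1 ≤ n := by omega
        have e1 : l - i0 - (l - (i0 + n)) = n := by omega
        rw [e1]
        have e2 : A * d.dl ^ (l - (i0 + n)) * d.R ^ (2 * (i0 + n)) * W
            = d.P ^ 2 * d.R * (d.R ^ 2) ^ (n - 1) * d.V ^ n := by
          rw [hW]
          obtain ⟨s, hs⟩ : ∃ s, l - i0 = n + s := ⟨l - i0 - n, by omega⟩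
          have hs2 : l - (i0 + n) = s := by omega
          rw [hs, hs2]
          obtain ⟨t, rfl⟩ : ∃ t, n = t + 1 := ⟨n - 1, by omega⟩
          have h1 := hRI (2 * i0 + 2)
          have h2 := hdV s
          simp only [Nat.add_sub_cancel]
          calc A * d.dl ^ s * d.R ^ (2 * (i0 + (t + 1))) *
                (B * d.I ^ (2 * i0 + 2) * d.V ^ (t + 1 + s))
              = (A * B) * (d.R ^ 2) ^ t * d.V ^ (t + 1) *
                (d.R ^ (2 * i0 + 2) * d.I ^ (2 * i0 + 2)) * (d.dl ^ s * d.V ^ s) := by ring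
            _ = _ := by rw [h1, h2, hAB]; ring
        rw [e2, d.coeff_key n hn, mul_zero]
    · intro h
      exact absurd (Finset.mem_range.mpr (by omega)) h
  rw [← hleft, hright]

end Data

end Q262.Miller
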