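import Pool.Agent.Q262.Miller.Formal

/-!
The coefficient formula for the expansion of Faber polynomials at `0`.
-/

set_option autoImplicit false

open PowerSeries

namespace Q262.Miller

namespace Data

variable (d : Data)

/-- If `S / δ` satisfies the same differential equation as `E_6² / δ`. -/
lemma coeff_keyS (S : ℂ⟦X⟧) (hS : d.P ^ 2 * d.R * d.V = S * d.V - th (S * d.V))
    (n : ℕ) (hn : 1 ≤ n) :
    coeff n (d.P ^ 2 * d.R * S ^ (n - 1) * d.V ^ n) = 0 := by
  set U := S * d.V with hU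
  have h1 : d.P ^ 2 * d.R * S ^ (n - 1) * d.V ^ n = U ^ n - U ^ (n - 1) * th U := by
    obtain ⟨m, rfl⟩ : ∃ m, n = m + 1 := ⟨n - 1, by omega⟩
    have e : U ^ m = S ^ m * d.V ^ m := by rw [hU, mul_pow]
    simp only [Nat.add_sub_cancel]
    calc d.P ^ 2 * d.R * S ^ m * d.V ^ (m + 1)
        = (d.P ^ 2 * d.R * d.V) * (S ^ m * d.V ^ m) := by ring
      _ = (U - th U) * U ^ m := by rw [hS, e]
      _ = U ^ (m + 1) - U ^ m * th U := by ring
  have h2 : (n : ℂ) * coeff n (U ^ (n - 1) * th U) = coeff n (th (U ^ n)) := by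
    rw [th_pow]
    have : (n : ℂ⟦X⟧) * U ^ (n - 1) * th U = (n : ℂ) • (U ^ (n - 1) * th U) := by
      rw [mul_assoc, ← nsmul_eq_mul, Nat.cast_smul_eq_nsmul]
    rw [this, coeff_smul, smul_eq_mul]
  rw [coeff_th] at h2
  have hn0 : (n : ℂ) ≠ 0 := by exact_mod_cast (by omega : n ≠ 0)
  have h3 := mul_left_cancel₀ hn0 h2
  rw [h1, map_sub, h3, sub_self]

/-- The coefficient formula. `A` and `B` are the series of `E_{k'}` and `E_{14-k'}`. -/
theorem coeff_formulaS (A B : ℂ⟦X⟧) (hAB : A * B = d.P ^ 2 * d.R) (S T : ℂ⟦X⟧) (hST : S * T = 1)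
    (hS0 : constantCoeff S = 1)
    (hS : d.P ^ 2 * d.R * d.V = S * d.V - th (S * d.V)) (l m : ℕ) (hm : m ≤ l)
    (c : ℕ → ℂ) (f : ℂ⟦X⟧) (hf : ∀ n ≤ l, coeff n f = if n = m then 1 else 0)
    (hc : f = ∑ i ∈ Finset.range (l - m + 1), C (c i) * (A * (X * d.dl) ^ (l - i) * S ^ i))
    (i0 : ℕ) (hi0 : i0 ≤ l - m) :
    c i0 = coeff (l - i0 - m) (B * T ^ (i0 + 1) * d.V ^ (l - i0)) := by
  set W := B * T ^ (i0 + 1) * d.V ^ (l - i0) with hW
  have hRI : ∀ s, S ^ s * T ^ s = 1 := fun s => by rw [← mul_pow, hST, one_pow]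
  have hdV : ∀ s, d.dl ^ s * d.V ^ s = 1 := fun s => by rw [← mul_pow, d.dl_V, one_pow]
  have hP0 : constantCoeff d.P = 1 := d.P0
  have hR0 : constantCoeff d.R = 1 := d.R0
  have hT0 : constantCoeff T = 1 := by
    have := congrArg (constantCoeff (R := ℂ)) hST
    rw [map_mul, hS0, map_one, one_mul] at this
    exact this
  -- the right side
  have hright : coeff (l - i0) (f * W) = coeff (l - i0 - m) W := by
    have hfm : ∃ g, f = X ^ m + X ^ (l + 1) * g := by
      have : X ^ (l + 1) ∣ f - X ^ m := by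
        rw [X_pow_dvd_iff]
        intro n hn
        rw [map_sub, coeff_X_pow, hf n (by omega), sub_self]
      obtain ⟨g, hg⟩ := this
      exact ⟨g, by rw [← hg]; ring⟩
    obtain ⟨g, hg⟩ := hfm
    rw [hg, add_mul, map_add, coeff_X_pow_mul', if_pos (by omega), mul_assoc, coeff_X_pow_mul',
      if_neg (by omega), add_zero]
  -- the left side
  have hleft : coeff (l - i0) (f * W) = c i0 := by
    rw [hc, Finset.sum_mul, map_sum]
    rw [Finset.sum_eq_single i0]
    · have e : C (c i0) * (A * (X * d.dl) ^ (l - i0) * S ^ i0) * W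
          = C (c i0) * (X ^ (l - i0) * (d.P ^ 2 * d.R * T)) := by
        rw [hW, mul_pow]
        have h1 := hRI i0
        have h2 := hdV (l - i0)
        calc C (c i0) * (A * (X ^ (l - i0) * d.dl ^ (l - i0)) * S ^ i0) *
              (B * T ^ (i0 + 1) * d.V ^ (l - i0))
            = C (c i0) * (X ^ (l - i0) * ((A * B) * T)) *
                (S ^ i0 * T ^ i0) * (d.dl ^ (l - i0) * d.V ^ (l - i0)) := by ring
          _ = _ := by rw [h1, h2, hAB]; ring
      rw [e, coeff_C_mul, coeff_X_pow_mul', if_pos le_rfl, Nat.sub_self,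
        coeff_zero_eq_constantCoeff]
      simp [hP0, hR0, hT0]
    · intro i hi hne
      have hi' : i ≤ l - m := by have := Finset.mem_range.mp hi; omega
      have e0 : C (c i) * (A * (X * d.dl) ^ (l - i) * S ^ i) * W
          = C (c i) * (X ^ (l - i) * (A * d.dl ^ (l - i) * S ^ i * W)) := by
        rw [mul_pow]; ring
      rw [e0, coeff_C_mul, coeff_X_pow_mul']
      rcases lt_or_gt_of_ne hne with h | h
      · rw [if_neg (by omega), mul_zero]
      · rw [if_pos (by omega)]
        obtain ⟨n, rfl⟩ : ∃ n, i = i0 + n := ⟨i - i0, by omega⟩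
        have hn : 1 ≤ n := by omega
        have e1 : l - i0 - (l - (i0 + n)) = n := by omega
        rw [e1]
        have e2 : A * d.dl ^ (l - (i0 + n)) * S ^ (i0 + n) * W
            = d.P ^ 2 * d.R * S ^ (n - 1) * d.V ^ n := by
          rw [hW]
          obtain ⟨s, hs⟩ : ∃ s, l - i0 = n + s := ⟨l - i0 - n, by omega⟩
          have hs2 : l - (i0 + n) = s := by omega
          rw [hs, hs2]
          obtain ⟨t, rfl⟩ : ∃ t, n = t + 1 := ⟨n - 1, by omega⟩
          have h1 := hRI (i0 + 1)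
          have h2 := hdV s
          simp only [Nat.add_sub_cancel]
          calc A * d.dl ^ s * S ^ (i0 + (t + 1)) *
                (B * T ^ (i0 + 1) * d.V ^ (t + 1 + s))
              = (A * B) * S ^ t * d.V ^ (t + 1) *
                (S ^ (i0 + 1) * T ^ (i0 + 1)) * (d.dl ^ s * d.V ^ s) := by ring
            _ = _ := by rw [h1, h2, hAB]; ring
        rw [e2, d.coeff_keyS S hS n hn, mul_zero]
    · intro h
      exact absurd (Finset.mem_range.mpr (by omega)) h
  rw [← hleft, hright]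

/-- `E_4³ / δ` satisfies the differential equation. -/
lemma th_P3 (hP : 3 * th d.P = d.E * d.P - d.R) :
    d.P ^ 2 * d.R * d.V = d.P ^ 3 * d.V - th (d.P ^ 3 * d.V) := by
  rw [th_mul, th_pow, d.th_V]
  simp only [Nat.add_one_sub_one, Nat.cast_ofNat]
  linear_combination (d.P ^ 2 * d.V) * hP

end Data

end Q262.Miller
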