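import Pool.Agent.Q262.Miller.Formal

/-!
Positivity of the coefficients.
-/

set_option autoImplicit false

open PowerSeries
open scoped ComplexOrder

namespace Q262.Miller

/-- All coefficients are nonnegative. -/
def NN (f : ℂ⟦X⟧) : Prop := ∀ n, 0 ≤ coeff n f

lemma NN.mul {f g : ℂ⟦X⟧} (hf : NN f) (hg : NN g) : NN (f * g) := by
  intro n
  rw [coeff_mul]
  exact Finset.sum_nonneg (fun p _ => mul_nonneg (hf _) (hg _))

lemma NN.one : NN (1 : ℂ⟦X⟧) := by
  intro n
  rw [coeff_one]
  split_ifs
  · exact zero_le_one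
  · exact le_rfl

lemma NN.pow {f : ℂ⟦X⟧} (hf : NN f) (k : ℕ) : NN (f ^ k) := by
  induction k with
  | zero => rw [pow_zero]; exact NN.one
  | succ k ih => rw [pow_succ]; exact ih.mul hf

/-- Sign conditions. -/
structure Signs (d : Data) : Prop where
  hP : NN d.P
  hR : ∀ n, 1 ≤ n → coeff n d.R < 0
  hE : ∀ n, 1 ≤ n → coeff n d.E ≤ 0
  hE0 : coeff 0 d.E = 1

variable {d : Data}

lemma nn_V (h : Signs d) : NN d.V := by
  have hE1 : ∀ n, 0 ≤ coeff n (1 - d.E) := by
    intro n
    rw [map_sub, coeff_one]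
    rcases Nat.eq_zero_or_pos n with h0 | h0
    · rw [h0, h.hE0]; simp
    · rw [if_neg (by omega), zero_sub]
      exact neg_nonneg.mpr (h.hE n h0)
  intro n
  induction n using Nat.strong_induction_on with
  | _ n ih =>
    rcases Nat.eq_zero_or_pos n with h0 | h0
    · subst h0
      rw [coeff_zero_eq_constantCoeff]
      rw [d.V0]
      exact zero_le_one
    · have h1 : (n : ℂ) * coeff n d.V = coeff n ((1 - d.E) * d.V) := by
        rw [← coeff_th, d.th_V]
      have h2 : 0 ≤ coeff n ((1 - d.E) * d.V) := by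
        rw [coeff_mul]
        apply Finset.sum_nonneg
        intro p hp
        rcases Nat.eq_zero_or_pos p.1 with hp0 | hp0
        · rw [hp0]
          have : coeff 0 (1 - d.E) = 0 := by rw [map_sub, h.hE0]; simp
          rw [this, zero_mul]
        · have hlt : p.2 < n := by
            have := Finset.HasAntidiagonal.mem_antidiagonal.mp hp
            omega
          exact mul_nonneg (hE1 _) (ih _ hlt)
      rw [← h1] at h2
      have hn : (n : ℂ) ≠ 0 := by exact_mod_cast h0.ne'
      have hinv : (0 : ℂ) ≤ (((n : ℝ)⁻¹ : ℝ) : ℂ) := Complex.zero_le_real.mpr (by positivity)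
      have h3 : coeff n d.V = (((n : ℝ)⁻¹ : ℝ) : ℂ) * ((n : ℂ) * coeff n d.V) := by
        push_cast
        rw [← mul_assoc, inv_mul_cancel₀ hn, one_mul]
      rw [h3]
      exact mul_nonneg hinv h2

lemma pos_I (h : Signs d) : ∀ n, 0 < coeff n d.I := by
  have hI : d.I = 1 + (1 - d.R) * d.I := by
    have := d.R_I
    linear_combination this
  intro n
  induction n using Nat.strong_induction_on with
  | _ n ih =>
    rcases Nat.eq_zero_or_pos n with h0 | h0
    · subst h0
      rw [coeff_zero_eq_constantCoeff, d.I0]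
      exact zero_lt_one
    · rw [hI, map_add, coeff_one, if_neg (by omega), zero_add, coeff_mul]
      apply Finset.sum_pos'
      · intro p hp
        rcases Nat.eq_zero_or_pos p.1 with hp0 | hp0
        · rw [hp0]
          have : coeff 0 (1 - d.R) = 0 := by
            rw [map_sub, coeff_zero_eq_constantCoeff, d.R0]
            simp
          rw [this, zero_mul]
        · have hlt : p.2 < n := by
            have := Finset.HasAntidiagonal.mem_antidiagonal.mp hp
            omega
          refine mul_nonneg ?_ (ih _ hlt).le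
          rw [map_sub, coeff_one, if_neg (by omega), zero_sub]
          exact neg_nonneg.mpr (h.hR _ hp0).le
      · refine ⟨(n, 0), Finset.HasAntidiagonal.mem_antidiagonal.mpr (by simp), ?_⟩
        have e : coeff n (1 - d.R) = -coeff n d.R := by
          rw [map_sub, coeff_one, if_neg (by omega), zero_sub]
        show 0 < coeff n (1 - d.R) * coeff 0 d.I
        rw [e]
        exact mul_pos (neg_pos.mpr (h.hR n h0)) (ih 0 h0)

lemma nn_I (h : Signs d) : NN d.I := fun n => (pos_I h n).le

/-- A product of a series with positive coefficients and one with nonnegative coefficients and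
constant coefficient one has positive coefficients. -/
lemma pos_mul {f g : ℂ⟦X⟧} (hf : ∀ n, 0 < coeff n f) (hg : NN g) (hg0 : constantCoeff g = 1)
    (n : ℕ) : 0 < coeff n (f * g) := by
  rw [coeff_mul]
  apply Finset.sum_pos'
  · intro p _
    exact mul_nonneg (hf _).le (hg _)
  · refine ⟨(n, 0), Finset.HasAntidiagonal.mem_antidiagonal.mpr (by simp), ?_⟩
    show 0 < coeff n f * coeff 0 g
    rw [coeff_zero_eq_constantCoeff, hg0, mul_one]
    exact hf n

/-- All the coefficients `c i` in the expansion at `1728` are positive. -/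
theorem coeff_pos (h : Signs d) (A B : ℂ⟦X⟧) (hAB : A * B = d.P ^ 2 * d.R)
    (hB : ∃ a b : ℕ, b ≤ 1 ∧ B = d.P ^ a * d.R ^ b) (l m : ℕ) (hm : m ≤ l)
    (c : ℕ → ℂ) (f : ℂ⟦X⟧) (hf : ∀ n ≤ l, coeff n f = if n = m then 1 else 0)
    (hc : f = ∑ i ∈ Finset.range (l - m + 1), C (c i) * (A * (X * d.dl) ^ (l - i) * d.R ^ (2 * i)))
    (i0 : ℕ) (hi0 : i0 ≤ l - m) : 0 < c i0 := by
  rw [d.coeff_formula A B hAB l m hm c f hf hc i0 hi0]
  obtain ⟨a, b, hb, rfl⟩ := hB
  obtain ⟨s, hs⟩ : ∃ s, 2 * i0 + 2 = 1 + s + b := ⟨2 * i0 + 1 - b, by omega⟩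
  have e : d.P ^ a * d.R ^ b * d.I ^ (2 * i0 + 2) * d.V ^ (l - i0)
      = d.I * (d.P ^ a * d.I ^ s * d.V ^ (l - i0)) := by
    have : d.R ^ b * d.I ^ b = 1 := by rw [← mul_pow, d.R_I, one_pow]
    rw [hs, pow_add, pow_add, pow_one]
    calc d.P ^ a * d.R ^ b * (d.I * d.I ^ s * d.I ^ b) * d.V ^ (l - i0)
        = (d.R ^ b * d.I ^ b) * (d.I * (d.P ^ a * d.I ^ s * d.V ^ (l - i0))) := by ring
      _ = _ := by rw [this, one_mul]
  rw [e]
  apply pos_mul (pos_I h)
  · exact ((h.hP.pow a).mul ((nn_I h).pow s)).mul ((nn_V h).pow _)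
  · simp [d.P0, d.I0, d.V0]

end Q262.Miller
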