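import Pool.Agent.Q262.Miller.QD
import Pool.Agent.Q262.Miller.Positivity

/-!
The `q`-expansions of `E_4, E_6, E_2, Δ` satisfy the formal hypotheses.
-/

set_option autoImplicit false

open UpperHalfPlane hiding I
open Real Complex Filter Topology Derivative EisensteinSeries ModularForm MatrixGroups Function
open scoped Manifold MatrixGroups ModularForm ComplexOrder

namespace Q262.Miller

/-- Analytic at the cusp. -/
def An (f : ℍ → ℂ) : Prop := AnalyticAt ℂ (cuspFunction 1 f) 0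

lemma An.mul {f g : ℍ → ℂ} (hf : An f) (hg : An g) : An (f * g) := by
  unfold An at *
  rw [cuspFunction_mul hf.continuousAt hg.continuousAt]
  exact AnalyticAt.mul hf hg

lemma An.sub {f g : ℍ → ℂ} (hf : An f) (hg : An g) : An (f - g) := by
  unfold An at *
  rw [cuspFunction_sub hf.continuousAt hg.continuousAt]
  exact AnalyticAt.sub hf hg

lemma An.add {f g : ℍ → ℂ} (hf : An f) (hg : An g) : An (f + g) := by
  unfold An at *
  rw [cuspFunction_add hf.continuousAt hg.continuousAt]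
  exact AnalyticAt.add hf hg

lemma An.smul {f : ℍ → ℂ} (hf : An f) (a : ℂ) : An (a • f) := by
  unfold An at *
  rw [cuspFunction_smul hf.continuousAt]
  exact AnalyticAt.const_smul hf

lemma an_form {k : ℤ} (f : ModularForm 𝒮ℒ k) : An f := (good_modularForm f).analytic

/-- Abbreviation. -/
noncomputable def qP : PowerSeries ℂ := qExpansion 1 (E₄ : ℍ → ℂ)
/-- Abbreviation. -/
noncomputable def qR : PowerSeries ℂ := qExpansion 1 (E₆ : ℍ → ℂ)
/-- Abbreviation. -/
noncomputable def qE : PowerSeries ℂ := qExpansion 1 E2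
/-- Abbreviation. -/
noncomputable def qD : PowerSeries ℂ := qExpansion 1 discriminant

lemma an_E4 : An (E₄ : ℍ → ℂ) := an_form E₄
lemma an_E6 : An (E₆ : ℍ → ℂ) := an_form E₆
lemma an_E2 : An E2 := good_E2.analytic

lemma th_qR : 2 * th qR = qE * qR - qP ^ 2 := by
  have h1 : (D (E₆ : ℍ → ℂ)) = (2⁻¹ : ℂ) • (E2 * (E₆ : ℍ → ℂ) - (E₄ : ℍ → ℂ) * (E₄ : ℍ → ℂ)) := by
    funext z
    have := Pool.Agent.Y949.J.ram6 z
    simp only [Pi.smul_apply, Pi.sub_apply, Pi.mul_apply, smul_eq_mul]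
    rw [← pow_two]
    exact this
  have h2 : qExpansion 1 (D (E₆ : ℍ → ℂ)) = (2⁻¹ : ℂ) • (qE * qR - qP * qP) := by
    rw [h1, UpperHalfPlane.qExpansion_smul ((an_E2.mul an_E6).sub (an_E4.mul an_E4)),
      UpperHalfPlane.qExpansion_sub (an_E2.mul an_E6) (an_E4.mul an_E4),
      UpperHalfPlane.qExpansion_mul an_E2 an_E6, UpperHalfPlane.qExpansion_mul an_E4 an_E4]
    rfl
  have h3 : th qR = qExpansion 1 (D (E₆ : ℍ → ℂ)) := by
    ext n
    rw [coeff_th, coeff_D (good_modularForm E₆)]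
    rfl
  rw [h3, h2]
  ext n
  rw [show (2 : PowerSeries ℂ) = PowerSeries.C (2 : ℂ) from (map_ofNat PowerSeries.C 2).symm,
    PowerSeries.coeff_C_mul, PowerSeries.coeff_smul, smul_eq_mul, pow_two]
  ring

lemma th_qP : 3 * th qP = qE * qP - qR := by
  have h1 : (D (E₄ : ℍ → ℂ)) = (3⁻¹ : ℂ) • (E2 * (E₄ : ℍ → ℂ) - (E₆ : ℍ → ℂ)) := by
    funext z
    exact Pool.Agent.Y949.J.ram4 z
  have h2 : qExpansion 1 (D (E₄ : ℍ → ℂ)) = (3⁻¹ : ℂ) • (qE * qP - qR) := by
    rw [h1, UpperHalfPlane.qExpansion_smul ((an_E2.mul an_E4).sub an_E6),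
      UpperHalfPlane.qExpansion_sub (an_E2.mul an_E4) an_E6,
      UpperHalfPlane.qExpansion_mul an_E2 an_E4]
    rfl
  have h3 : th qP = qExpansion 1 (D (E₄ : ℍ → ℂ)) := by
    ext n
    rw [coeff_th, coeff_D (good_modularForm E₄)]
    rfl
  rw [h3, h2]
  ext n
  rw [show (3 : PowerSeries ℂ) = PowerSeries.C (3 : ℂ) from (map_ofNat PowerSeries.C 3).symm,
    PowerSeries.coeff_C_mul, PowerSeries.coeff_smul, smul_eq_mul]
  ring

lemma qD_eq : 1728 * qD = qP ^ 3 - qR ^ 2 := by
  have h1 : discriminant = (1728⁻¹ : ℂ) • ((E₄ : ℍ → ℂ) * (E₄ : ℍ → ℂ) * (E₄ : ℍ → ℂ)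
      - (E₆ : ℍ → ℂ) * (E₆ : ℍ → ℂ)) := by
    funext z
    rw [discriminant_eq_E₄_cube_sub_E₆_sq z]
    simp only [Pi.smul_apply, Pi.sub_apply, Pi.mul_apply, smul_eq_mul]
    ring
  have h2 : qD = (1728⁻¹ : ℂ) • (qP * qP * qP - qR * qR) := by
    unfold qD
    rw [h1, UpperHalfPlane.qExpansion_smul (((an_E4.mul an_E4).mul an_E4).sub (an_E6.mul an_E6)),
      UpperHalfPlane.qExpansion_sub ((an_E4.mul an_E4).mul an_E4) (an_E6.mul an_E6),
      UpperHalfPlane.qExpansion_mul (an_E4.mul an_E4) an_E4,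
      UpperHalfPlane.qExpansion_mul an_E4 an_E4, UpperHalfPlane.qExpansion_mul an_E6 an_E6]
    rfl
  rw [h2]
  ext n
  rw [show (1728 : PowerSeries ℂ) = PowerSeries.C (1728 : ℂ) from
    (map_ofNat PowerSeries.C 1728).symm, PowerSeries.coeff_C_mul, PowerSeries.coeff_smul,
    smul_eq_mul, pow_succ, pow_two, pow_two]
  ring

lemma th_qD : th qD = qE * qD := by
  have h1 : th (1728 * qD) = 1728 * th qD := by
    rw [th_mul]
    have : th (1728 : PowerSeries ℂ) = 0 := by
      unfold th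
      rw [show (1728 : PowerSeries ℂ) = PowerSeries.C (1728 : ℂ) from
        (map_ofNat PowerSeries.C 1728).symm, PowerSeries.derivative_C, mul_zero]
    rw [this]; ring
  have h2 : th (qP ^ 3 - qR ^ 2) = 3 * qP ^ 2 * th qP - 2 * qR * th qR := by
    have hs : ∀ a b : PowerSeries ℂ, th (a - b) = th a - th b := by
      intro a b; unfold th; rw [map_sub]; ring
    rw [hs, th_pow, th_pow]
    simp
  rw [qD_eq, h2] at h1
  have h3 := th_qP
  have h4 := th_qR
  have h5 := qD_eq
  have h6 : (1728 : PowerSeries ℂ) * (th qD - qE * qD) = 0 := by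
    linear_combination -h1 + qP ^ 2 * h3 - qR * h4 - qE * h5
  have h7 : (1728 : PowerSeries ℂ) ≠ 0 := by
    intro h
    have h8 := congrArg (PowerSeries.constantCoeff (R := ℂ)) h
    rw [map_ofNat, map_zero] at h8
    norm_num at h8
  rcases mul_eq_zero.mp h6 with h | h
  · exact absurd h h7
  · exact sub_eq_zero.mp h

lemma qD_coeff_zero : PowerSeries.coeff 0 qD = 0 := by
  simpa [qD] using CuspFormClass.qExpansion_coeff_zero CuspForm.discriminant one_pos
    one_mem_strictPeriods_SL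

/-- `δ` with `Δ = q δ`. -/
noncomputable def qd : PowerSeries ℂ := PowerSeries.mk fun n => PowerSeries.coeff (n + 1) qD

lemma qD_eq_X_mul : PowerSeries.X * qd = qD := by
  ext n
  cases n with
  | zero => rw [qD_coeff_zero]; simp
  | succ n => rw [PowerSeries.coeff_succ_X_mul]; simp [qd]

lemma coeff_qP (m : ℕ) : PowerSeries.coeff m qP =
    if m = 0 then 1 else 240 * (ArithmeticFunction.sigma 3 m : ℂ) := by
  unfold qP
  rw [E_qExpansion_coeff _ ⟨2, rfl⟩]
  split_ifs
  · rfl
  · norm_num [show bernoulli 4 = -1 / 30 by decide +kernel]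

lemma coeff_qR (m : ℕ) : PowerSeries.coeff m qR =
    if m = 0 then 1 else -504 * (ArithmeticFunction.sigma 5 m : ℂ) := by
  unfold qR
  rw [E_qExpansion_coeff _ ⟨3, rfl⟩]
  split_ifs
  · rfl
  · norm_num [show bernoulli 6 = 1 / 42 by decide +kernel]

/-- The data of the actual modular forms. -/
noncomputable def data : Data where
  P := qP
  R := qR
  E := qE
  dl := qd
  P0 := by rw [← PowerSeries.coeff_zero_eq_constantCoeff]; simp [coeff_qP]
  R0 := by rw [← PowerSeries.coeff_zero_eq_constantCoeff]; simp [coeff_qR]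
  dl0 := by
    rw [← PowerSeries.coeff_zero_eq_constantCoeff]
    simp only [qd, PowerSeries.coeff_mk, zero_add]
    exact discriminant_qExpansion_coeff_one
  hR := th_qR
  hD := by rw [qD_eq_X_mul]; exact th_qD

lemma sigma_pos' (k n : ℕ) (hn : 1 ≤ n) : 0 < ArithmeticFunction.sigma k n := by
  rw [ArithmeticFunction.sigma_apply]
  apply Finset.sum_pos
  · intro i hi
    exact pow_pos (Nat.pos_of_mem_divisors hi) _
  · exact ⟨1, Nat.mem_divisors.mpr ⟨one_dvd _, by omega⟩⟩

lemma signs : Signs data where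
  hP := by
    intro n
    show 0 ≤ PowerSeries.coeff n qP
    rw [coeff_qP]
    split_ifs
    · exact zero_le_one
    · positivity
  hR := by
    intro n hn
    show PowerSeries.coeff n qR < 0
    rw [coeff_qR, if_neg (by omega)]
    have h1 : (0 : ℂ) < (ArithmeticFunction.sigma 5 n : ℂ) := by
      exact_mod_cast sigma_pos' 5 n hn
    have h2 : (0 : ℂ) < 504 * (ArithmeticFunction.sigma 5 n : ℂ) := by positivity
    rw [neg_mul]
    exact neg_neg_of_pos h2
  hE := by
    intro n hn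
    show PowerSeries.coeff n qE ≤ 0
    unfold qE
    rw [coeff_E2, if_neg (by omega)]
    have h2 : (0 : ℂ) ≤ 24 * (ArithmeticFunction.sigma 1 n : ℂ) := by positivity
    rw [neg_mul]
    exact neg_nonpos.mpr h2
  hE0 := by
    show PowerSeries.coeff 0 qE = 1
    unfold qE
    rw [coeff_E2, if_pos rfl]

end Q262.Miller
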