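import Pool.Agent.Q262.Miller.KData

/-!
Kernel checks of the recursions.
-/

set_option autoImplicit false

namespace Q262.Miller.K

/-- dot product, truncated to the shorter list -/
def dot : List ℤ → List ℤ → ℤ
  | a :: s, b :: t => a * b + dot s t
  | _, _ => 0

/-- check of the recursion `n W_n = c ∑ s_j W_{n-j}`, `W_0 = 1` -/
def chkW (c : ℤ) (s : List ℤ) : List ℤ → Bool
  | [] => false
  | [w] => w == 1
  | w :: v :: t => ((v :: t).length : ℤ) * w == c * dot s (v :: t) && chkW c s (v :: t)

/-- check of the recursion `Q_n = r_n - ∑ p_j Q_{n-j}`, `Q_0 = 1` -/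
def chkQ (p r : List ℤ) : List ℤ → Bool
  | [] => false
  | [w] => w == 1
  | w :: v :: t => w == r.getD t.length 0 - dot p (v :: t) && chkQ p r (v :: t)

lemma chk304 : chkW (24 * 304) sg1 W304 = true := by decide +kernel

lemma chk160 : chkW (24 * 160) sg1 W160 = true := by decide +kernel

lemma chkQQ : chkQ (sg3.map (fun x => 240 * x)) (sg5.map (fun x => -504 * x)) QQ = true := by
  decide +kernel

lemma neg304 : dot QQ.reverse W304 < 0 := by decide +kernel

lemma neg160 : dot QQ.reverse W160 < 0 := by decide +kernel

lemma len304 : W304.length = 113 := by decide +kernel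
lemma len160 : W160.length = 59 := by decide +kernel
lemma lenQQ : QQ.length = 113 := by decide +kernel
lemma lensg1 : sg1.length = 112 := by decide +kernel
lemma lensg3 : sg3.length = 112 := by decide +kernel
lemma lensg5 : sg5.length = 112 := by decide +kernel

lemma sg1_eq : ∀ i < 112, sg1.getD i 0 = (ArithmeticFunction.sigma 1 (i + 1) : ℕ) := by
  decide +kernel

lemma sg3_eq : ∀ i < 112, sg3.getD i 0 = (ArithmeticFunction.sigma 3 (i + 1) : ℕ) := by
  decide +kernel

lemma sg5_eq : ∀ i < 112, sg5.getD i 0 = (ArithmeticFunction.sigma 5 (i + 1) : ℕ) := by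
  decide +kernel

end Q262.Miller.K
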