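import Pool.Agent.Q262.Miller.Kernel
import Pool.Agent.Q262.Miller.FormalS
import Pool.Agent.Q262.Miller.Final

/-!
The value at `0` of two Faber polynomials.
-/

set_option autoImplicit false

open UpperHalfPlane hiding I
open EisensteinSeries ModularForm MatrixGroups Polynomial

namespace Q262.Miller

namespace K

lemma dot_eq (s t : List ℤ) :
    dot s t = ∑ j ∈ Finset.range t.length, s.getD j 0 * t.getD j 0 := by
  induction s generalizing t with
  | nil => cases t <;> simp [dot]
  | cons a s ih =>
    cases t with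
    | nil => simp [dot]
    | cons b t =>
      rw [dot, ih, List.length_cons, Finset.sum_range_succ']
      simp [add_comm]

lemma chkW_sound (c : ℤ) (s : List ℤ) (W : ℕ → ℂ) (h0 : W 0 = 1) (N : ℕ)
    (hrec : ∀ n, 1 ≤ n → n ≤ N →
      (n : ℂ) * W n = c * ∑ j ∈ Finset.range n, (s.getD j 0 : ℂ) * W (n - 1 - j))
    (L : List ℤ) (hL : chkW c s L = true) (hN : L.length ≤ N + 1) :
    ∀ i < L.length, (L.getD i 0 : ℂ) = W (L.length - 1 - i) := by
  induction L with
  | nil => intro i hi; simp at hi
  | cons w t ih =>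
    cases t with
    | nil =>
      intro i hi
      simp only [List.length_cons, List.length_nil, zero_add, Nat.lt_one_iff] at hi
      subst hi
      simp only [chkW, beq_iff_eq] at hL
      subst hL
      simp [h0]
    | cons v t =>
      simp only [chkW, Bool.and_eq_true, beq_iff_eq] at hL
      obtain ⟨h1, h2⟩ := hL
      have ih' := ih h2 (by simp only [List.length_cons] at hN ⊢; omega)
      intro i hi
      cases i with
      | succ i =>
        have hi' : i < (v :: t).length := by
          simp only [List.length_cons] at hi ⊢; omega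
        have := ih' i hi'
        rw [List.getD_cons_succ, this]
        congr 1
        simp only [List.length_cons]
        omega
      | zero =>
        rw [List.getD_cons_zero]
        set n := (v :: t).length with hn
        have hlen : (w :: v :: t).length - 1 - 0 = n := by simp [hn]
        rw [hlen]
        have hn1 : 1 ≤ n := by rw [hn]; simp
        have hnN : n ≤ N := by simp only [List.length_cons] at hN; rw [hn, List.length_cons]; omega
        have h3 := hrec n hn1 hnN
        have h4 : ((dot s (v :: t) : ℤ) : ℂ)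
            = ∑ j ∈ Finset.range n, (s.getD j 0 : ℂ) * W (n - 1 - j) := by
          rw [dot_eq]
          push_cast
          apply Finset.sum_congr rfl
          intro j hj
          rw [ih' j (Finset.mem_range.mp hj)]
        have h5 : ((n : ℤ) * w : ℤ) = c * dot s (v :: t) := h1
        have h6 : (n : ℂ) * (w : ℂ) = c * ((dot s (v :: t) : ℤ) : ℂ) := by exact_mod_cast h5
        rw [h4, ← h3] at h6
        have hn0 : (n : ℂ) ≠ 0 := by exact_mod_cast (by omega : n ≠ 0)
        exact mul_left_cancel₀ hn0 h6

lemma chkQ_sound (p r : List ℤ) (Q : ℕ → ℂ) (h0 : Q 0 = 1) (N : ℕ)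
    (hrec : ∀ n, 1 ≤ n → n ≤ N →
      Q n = (r.getD (n - 1) 0 : ℂ) - ∑ j ∈ Finset.range n, (p.getD j 0 : ℂ) * Q (n - 1 - j))
    (L : List ℤ) (hL : chkQ p r L = true) (hN : L.length ≤ N + 1) :
    ∀ i < L.length, (L.getD i 0 : ℂ) = Q (L.length - 1 - i) := by
  induction L with
  | nil => intro i hi; simp at hi
  | cons w t ih =>
    cases t with
    | nil =>
      intro i hi
      simp only [List.length_cons, List.length_nil, zero_add, Nat.lt_one_iff] at hi
      subst hi
      simp only [chkQ, beq_iff_eq] at hL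
      subst hL
      simp [h0]
    | cons v t =>
      simp only [chkQ, Bool.and_eq_true, beq_iff_eq] at hL
      obtain ⟨h1, h2⟩ := hL
      have ih' := ih h2 (by simp only [List.length_cons] at hN ⊢; omega)
      intro i hi
      cases i with
      | succ i =>
        have hi' : i < (v :: t).length := by
          simp only [List.length_cons] at hi ⊢; omega
        have := ih' i hi'
        rw [List.getD_cons_succ, this]
        congr 1
        simp only [List.length_cons]
        omega
      | zero =>
        rw [List.getD_cons_zero]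
        set n := (v :: t).length with hn
        have hlen : (w :: v :: t).length - 1 - 0 = n := by simp [hn]
        rw [hlen]
        have hn1 : 1 ≤ n := by rw [hn]; simp
        have hnN : n ≤ N := by simp only [List.length_cons] at hN; rw [hn, List.length_cons]; omega
        have h3 := hrec n hn1 hnN
        have h4 : ((dot p (v :: t) : ℤ) : ℂ)
            = ∑ j ∈ Finset.range n, (p.getD j 0 : ℂ) * Q (n - 1 - j) := by
          rw [dot_eq]
          push_cast
          apply Finset.sum_congr rfl
          intro j hj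
          rw [ih' j (Finset.mem_range.mp hj)]
        have ht : t.length = n - 1 := by rw [hn]; simp
        rw [h1, ht]
        push_cast
        rw [h4, ← h3]

end K

/-- the power series `δ^(-ℓ)` satisfies the recursion -/
lemma V_rec (l n : ℕ) : (n : ℂ) * PowerSeries.coeff n (data.V ^ l) = (24 * l : ℂ) *
    ∑ j ∈ Finset.range n, (ArithmeticFunction.sigma 1 (j + 1) : ℂ) *
      PowerSeries.coeff (n - 1 - j) (data.V ^ l) := by
  have h1 : th (data.V ^ l) = (l : PowerSeries ℂ) * ((1 - data.E) * data.V ^ l) := by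
    cases l with
    | zero => rw [pow_zero, th_one]; simp
    | succ l =>
      rw [th_pow, data.th_V, Nat.add_sub_cancel]
      ring
  rw [← coeff_th, h1]
  have h2 : (l : PowerSeries ℂ) = PowerSeries.C (l : ℂ) := by simp
  rw [h2, PowerSeries.coeff_C_mul, PowerSeries.coeff_mul,
    Finset.Nat.sum_antidiagonal_eq_sum_range_succ_mk, Finset.sum_range_succ']
  have h3 : PowerSeries.coeff 0 (1 - data.E) = 0 := by
    rw [map_sub, signs.hE0]; simp
  rw [h3, zero_mul, add_zero, mul_comm (24 : ℂ) (l : ℂ), mul_assoc, Finset.mul_sum (a := (24 : ℂ))]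
  congr 1
  apply Finset.sum_congr rfl
  intro j _
  have h4 : PowerSeries.coeff (j + 1) (1 - data.E)
      = 24 * (ArithmeticFunction.sigma 1 (j + 1) : ℂ) := by
    rw [map_sub, PowerSeries.coeff_one, if_neg (by omega)]
    have : PowerSeries.coeff (j + 1) data.E = -24 * (ArithmeticFunction.sigma 1 (j + 1) : ℂ) := by
      show PowerSeries.coeff (j + 1) qE = _
      unfold qE
      rw [coeff_E2, if_neg (by omega)]
    rw [this]; ring
  rw [h4]
  have e : n - (j + 1) = n - 1 - j := by omega
  rw [e]
  ring

/-- the series `E_6 / E_4` -/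
noncomputable def qQ : PowerSeries ℂ := qR * qP⁻¹

lemma qP_inv : qP * qP⁻¹ = 1 := by
  apply PowerSeries.mul_inv_cancel
  have : PowerSeries.constantCoeff qP = 1 := data.P0
  rw [this]; exact one_ne_zero

lemma qQ_zero : PowerSeries.coeff 0 qQ = 1 := by
  unfold qQ
  rw [PowerSeries.coeff_zero_eq_constantCoeff, map_mul, PowerSeries.constantCoeff_inv]
  have h1 : PowerSeries.constantCoeff qP = 1 := data.P0
  have h2 : PowerSeries.constantCoeff qR = 1 := data.R0
  rw [h1, h2]; simp

lemma Q_rec (n : ℕ) (hn : 1 ≤ n) : PowerSeries.coeff n qQ =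
    -504 * (ArithmeticFunction.sigma 5 n : ℂ) -
    ∑ j ∈ Finset.range n, (240 * (ArithmeticFunction.sigma 3 (j + 1) : ℂ)) *
      PowerSeries.coeff (n - 1 - j) qQ := by
  have h1 : qP * qQ = qR := by
    unfold qQ
    rw [mul_comm qR, ← mul_assoc, qP_inv, one_mul]
  have h2 := congrArg (PowerSeries.coeff n) h1
  rw [PowerSeries.coeff_mul, Finset.Nat.sum_antidiagonal_eq_sum_range_succ_mk,
    Finset.sum_range_succ', coeff_qR, if_neg (by omega)] at h2
  simp only [Nat.sub_zero] at h2
  rw [coeff_qP 0, if_pos rfl, one_mul] at h2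
  have h3 : ∑ k ∈ Finset.range n, PowerSeries.coeff (k + 1) qP * PowerSeries.coeff (n - (k + 1)) qQ
      = ∑ j ∈ Finset.range n, (240 * (ArithmeticFunction.sigma 3 (j + 1) : ℂ)) *
      PowerSeries.coeff (n - 1 - j) qQ := by
    apply Finset.sum_congr rfl
    intro j _
    rw [coeff_qP, if_neg (by omega)]
    have e : n - (j + 1) = n - 1 - j := by omega
    rw [e]
  rw [h3] at h2
  linear_combination h2

/-- `F(0)` is the coefficient of `q^(ℓ-m)` in `δ^(-ℓ) E_6 / E_4`. -/
lemma faber_eval_zero {l m : ℕ} (hm : m ≤ l) {F : ℂ[X]} (hF : IsFaber l 0 m F) :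
    F.eval 0 = PowerSeries.coeff (l - m) (qQ * data.V ^ l) := by
  have hk : 0 ∈ residues := by simp [residues]
  obtain ⟨hF1, hF2, f, hf, hfF⟩ := hF
  have h1 := q_combo (l := l) (N := l - m) (by omega) (Ek_an hk) (an_pow an_E4 3)
    (fun i => F.coeff i) f (by
      intro τ
      rw [hfF τ]
      congr 1
      rw [Polynomial.eval_eq_sum_range' (n := l - m + 1) (by omega)]
      rfl)
  have e4 : qExpansion 1 (E₄ : ℍ → ℂ) = qP := rfl
  have e0 : qExpansion 1 (Ek 0) = 1 := by
    have : Ek 0 = (1 : ℍ → ℂ) := by funext τ; simp [Ek]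
    rw [this, qExpansion_one]
  have h2 : qExpansion 1 f = ∑ i ∈ Finset.range (l - m + 1), PowerSeries.C (F.coeff i) *
      (1 * (PowerSeries.X * data.dl) ^ (l - i) * (qP ^ 3) ^ i) := by
    rw [h1]
    apply Finset.sum_congr rfl
    intro i _
    rw [q_pow an_E4, e4, e0, ← qD_eq_X_mul]
    rfl
  have hST : qP ^ 3 * (qP⁻¹) ^ 3 = 1 := by rw [← mul_pow, qP_inv, one_pow]
  have hP0 : PowerSeries.constantCoeff (qP ^ 3) = 1 := by
    have : PowerSeries.constantCoeff qP = 1 := data.P0
    rw [map_pow, this, one_pow]
  have hAB : (1 : PowerSeries ℂ) * (qP ^ 2 * qR) = data.P ^ 2 * data.R := by rw [one_mul]; rfl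
  have hS : data.P ^ 2 * data.R * data.V = qP ^ 3 * data.V - th (qP ^ 3 * data.V) :=
    data.th_P3 th_qP
  have h3 := data.coeff_formulaS 1 (qP ^ 2 * qR) hAB (qP ^ 3) ((qP⁻¹) ^ 3) hST
    hP0 hS l m hm (fun i => F.coeff i) (qExpansion 1 f) hf h2 0 (Nat.zero_le _)
  have h4 : F.eval 0 = F.coeff 0 := (Polynomial.coeff_zero_eq_eval_zero F).symm
  have h5 : qP ^ 2 * qR * (qP⁻¹) ^ 3 = qQ := by
    have h6 : qP ^ 2 * qR * (qP⁻¹) ^ 3 = (qP * qP⁻¹) ^ 2 * (qR * qP⁻¹) := by ring
    rw [h6, qP_inv, one_pow, one_mul]
    rfl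
  rw [zero_add, pow_one, Nat.sub_zero, h5] at h3
  rw [h4]
  exact h3

lemma QQ_coeff (i : ℕ) (hi : i < 113) : (K.QQ.getD i 0 : ℂ) = PowerSeries.coeff (112 - i) qQ := by
  have h := K.chkQ_sound (K.sg3.map (fun x => 240 * x)) (K.sg5.map (fun x => -504 * x))
    (fun n => PowerSeries.coeff n qQ) qQ_zero 112 (by
      intro n hn1 hn
      rw [Q_rec n hn1]
      congr 1
      · rw [List.getD_eq_getElem?_getD, List.getElem?_map]
        have h1 := K.sg5_eq (n - 1) (by omega)
        rw [List.getD_eq_getElem?_getD] at h1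
        have hlt : n - 1 < K.sg5.length := by rw [K.lensg5]; omega
        rw [List.getElem?_eq_getElem hlt] at h1 ⊢
        simp only [Option.getD_some, Option.map_some] at h1 ⊢
        rw [h1]
        have e : n - 1 + 1 = n := by omega
        rw [e]
        push_cast
        ring
      · apply Finset.sum_congr rfl
        intro j hj
        have hj' := Finset.mem_range.mp hj
        rw [List.getD_eq_getElem?_getD, List.getElem?_map]
        have h1 := K.sg3_eq j (by omega)
        rw [List.getD_eq_getElem?_getD] at h1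
        have hlt : j < K.sg3.length := by rw [K.lensg3]; omega
        rw [List.getElem?_eq_getElem hlt] at h1 ⊢
        simp only [Option.getD_some, Option.map_some] at h1 ⊢
        rw [h1]
        push_cast
        ring) K.QQ K.chkQQ (by rw [K.lenQQ])
  have := h i (by rw [K.lenQQ]; exact hi)
  rw [this, K.lenQQ]

lemma W_coeff (l : ℕ) (L : List ℤ) (D : ℕ) (hD : D ≤ 112) (hlen : L.length = D + 1)
    (hchk : K.chkW (24 * l) K.sg1 L = true) (i : ℕ) (hi : i < D + 1) :
    (L.getD i 0 : ℂ) = PowerSeries.coeff (D - i) (data.V ^ l) := by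
  have h := K.chkW_sound (24 * l) K.sg1 (fun n => PowerSeries.coeff n (data.V ^ l))
    (by simp [data.V0]) D (by
      intro n hn1 hn
      rw [V_rec l n]
      push_cast
      congr 1
      apply Finset.sum_congr rfl
      intro j hj
      have hj' := Finset.mem_range.mp hj
      rw [K.sg1_eq j (by omega)]
      push_cast
      ring) L hchk (by rw [hlen])
  have := h i (by rw [hlen]; exact hi)
  rw [this, hlen]
  rfl

lemma coeff_eq_dot (l : ℕ) (L : List ℤ) (D : ℕ) (hD : D ≤ 112) (hlen : L.length = D + 1)
    (hchk : K.chkW (24 * l) K.sg1 L = true) :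
    PowerSeries.coeff D (qQ * data.V ^ l) = ((K.dot K.QQ.reverse L : ℤ) : ℂ) := by
  rw [K.dot_eq, PowerSeries.coeff_mul, Finset.Nat.sum_antidiagonal_eq_sum_range_succ_mk, hlen]
  push_cast
  apply Finset.sum_congr rfl
  intro j hj
  have hj' := Finset.mem_range.mp hj
  rw [W_coeff l L D hD hlen hchk j hj']
  congr 1
  rw [List.getD_eq_getElem?_getD, List.getElem?_reverse (by rw [K.lenQQ]; omega), K.lenQQ]
  have h1 := QQ_coeff (113 - 1 - j) (by omega)
  rw [List.getD_eq_getElem?_getD] at h1
  rw [h1]
  have e : 112 - (113 - 1 - j) = j := by omega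
  rw [e]

end Q262.Miller
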