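import Pool.Agent.Q262.Miller.Inst
import Pool.Agent.Q262.Miller.Defs

/-!
Existence, uniqueness and positivity for Faber polynomials.
-/

set_option autoImplicit false

open UpperHalfPlane hiding I
open EisensteinSeries ModularForm MatrixGroups Polynomial
open scoped ComplexOrder

namespace Q262.Miller

/-! ### triangular systems -/

/-- Solution of a unitriangular system. -/
noncomputable def solve (T : ℕ → ℂ) (w : ℕ → ℕ → ℂ) (n : ℕ) : ℂ :=
  T n - ∑ s : Fin n, solve T w s * w s (n - s)
termination_by n
decreasing_by exact s.2

lemma solve_eq (T : ℕ → ℂ) (w : ℕ → ℕ → ℂ) (n : ℕ) :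
    solve T w n = T n - ∑ s ∈ Finset.range n, solve T w s * w s (n - s) := by
  rw [solve, Finset.sum_range]

/-- coefficient of a triangular sum -/
lemma coeff_tri (l : ℕ) (b : ℕ → ℂ) (w : ℕ → PowerSeries ℂ)
    (hw : ∀ s, PowerSeries.constantCoeff (w s) = 1) (n : ℕ) (hn : n ≤ l) :
    PowerSeries.coeff n (∑ s ∈ Finset.range (l + 1), PowerSeries.C (b s) *
      (PowerSeries.X ^ s * w s))
      = b n + ∑ s ∈ Finset.range n, b s * PowerSeries.coeff (n - s) (w s) := by
  rw [map_sum]
  have h1 : ∀ s ∈ Finset.range (l + 1), PowerSeries.coeff n (PowerSeries.C (b s) *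
      (PowerSeries.X ^ s * w s)) = if s ≤ n then b s * PowerSeries.coeff (n - s) (w s) else 0 := by
    intro s _
    rw [PowerSeries.coeff_C_mul, PowerSeries.coeff_X_pow_mul']
    split_ifs <;> simp
  rw [Finset.sum_congr rfl h1, ← Finset.sum_filter]
  have h2 : (Finset.range (l + 1)).filter (fun s => s ≤ n) = Finset.range (n + 1) := by
    ext s
    simp only [Finset.mem_filter, Finset.mem_range]
    omega
  rw [h2, Finset.sum_range_succ, Nat.sub_self, PowerSeries.coeff_zero_eq_constantCoeff, hw,
    mul_one, add_comm]

lemma tri_unique (l : ℕ) (b : ℕ → ℂ) (w : ℕ → PowerSeries ℂ)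
    (hw : ∀ s, PowerSeries.constantCoeff (w s) = 1) (m : ℕ)
    (h : ∀ n ≤ l, n < m → PowerSeries.coeff n (∑ s ∈ Finset.range (l + 1), PowerSeries.C (b s) *
      (PowerSeries.X ^ s * w s)) = 0) : ∀ n ≤ l, n < m → b n = 0 := by
  intro n
  induction n using Nat.strong_induction_on with
  | _ n ih =>
    intro hn hnm
    have h1 := h n hn hnm
    rw [coeff_tri l b w hw n hn] at h1
    have h2 : ∑ s ∈ Finset.range n, b s * PowerSeries.coeff (n - s) (w s) = 0 := by
      apply Finset.sum_eq_zero
      intro s hs
      have hs' := Finset.mem_range.mp hs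
      rw [ih s hs' (by omega) (by omega), zero_mul]
    rwa [h2, add_zero] at h1

/-! ### modular forms of level one -/

lemma eq_zero_of_coeff (n : ℕ) : ∀ (k : ℤ) (f : ModularForm 𝒮ℒ k),
    (∀ i < n, (qExpansion 1 f).coeff i = 0) →
    (∀ g : ModularForm 𝒮ℒ (k - 12 * n), g = 0) → f = 0 := by
  induction n with
  | zero =>
    intro k f _ h
    have := h (ModularForm.mcast (by simp) f)
    rwa [ModularForm.mcast_eq_zero_iff] at this
  | succ n ih =>
    intro k f hf h
    have h0 : (qExpansion 1 f).coeff 0 = 0 := hf 0 (by omega)
    suffices CuspForm.discriminantEquiv (toCuspForm f h0) = 0 by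
      simpa [CuspForm.discriminantEquiv.map_eq_zero_iff, DFunLike.ext_iff]
    apply ih (k - 12)
    · intro i hi
      have h1 := hf (i + 1) (by omega)
      rw [qExpansion_eq_qExpansion_discriminant_mul f h0] at h1
      have h2 : qExpansion 1 discriminant = PowerSeries.X * qd := qD_eq_X_mul.symm
      rw [h2, mul_assoc, PowerSeries.coeff_succ_X_mul] at h1
      -- strong form
      have key : ∀ i < n, PowerSeries.coeff i (qExpansion 1
          (CuspForm.discriminantEquiv (toCuspForm f h0))) = 0 := by
        intro i
        induction i using Nat.strong_induction_on with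
        | _ i ihi =>
          intro hi
          have h1 := hf (i + 1) (by omega)
          rw [qExpansion_eq_qExpansion_discriminant_mul f h0, h2, mul_assoc,
            PowerSeries.coeff_succ_X_mul, PowerSeries.coeff_mul] at h1
          rw [Finset.sum_eq_single (0, i)] at h1
          · have h3 : PowerSeries.coeff 0 qd = 1 := by
              rw [PowerSeries.coeff_zero_eq_constantCoeff]
              exact data.dl0
            rw [h3, one_mul] at h1
            exact h1
          · intro p hp hne
            have hp' := Finset.HasAntidiagonal.mem_antidiagonal.mp hp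
            have hlt : p.2 < i := by
              rcases Nat.lt_or_ge p.2 i with h | h
              · exact h
              · exfalso
                apply hne
                have : p.2 = i := by omega
                have : p.1 = 0 := by omega
                ext <;> simp <;> omega
            rw [ihi p.2 hlt (by omega), mul_zero]
          · intro h
            exact absurd (Finset.HasAntidiagonal.mem_antidiagonal.mpr (by simp)) h
      exact key i hi
    · intro g
      have := h (ModularForm.mcast (by push_cast; ring) g)
      rwa [ModularForm.mcast_eq_zero_iff] at this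

lemma weight_small {k' : ℕ} (hk : k' ∈ residues) (g : ModularForm 𝒮ℒ ((k' : ℤ) - 12)) : g = 0 := by
  have h : k' = 0 ∨ k' = 4 ∨ k' = 6 ∨ k' = 8 ∨ k' = 10 ∨ k' = 14 := by
    simpa [residues] using hk
  rcases h with rfl | rfl | rfl | rfl | rfl | rfl
  · exact rank_zero_iff_forall_zero.mp (levelOne_neg_weight_rank_zero (by norm_num)) g
  · exact rank_zero_iff_forall_zero.mp (levelOne_neg_weight_rank_zero (by norm_num)) g
  · exact rank_zero_iff_forall_zero.mp (levelOne_neg_weight_rank_zero (by norm_num)) g
  · exact rank_zero_iff_forall_zero.mp (levelOne_neg_weight_rank_zero (by norm_num)) g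
  · exact rank_zero_iff_forall_zero.mp (levelOne_neg_weight_rank_zero (by norm_num)) g
  · have := rank_zero_iff_forall_zero.mp levelOne_weight_two_rank_zero
      (ModularForm.mcast (by norm_num) g)
    rwa [ModularForm.mcast_eq_zero_iff] at this

lemma miller_unique {l k' m : ℕ} (hk : k' ∈ residues)
    {f g : ModularForm 𝒮ℒ ((12 * l + k' : ℕ) : ℤ)} (hf : IsMiller l k' m f)
    (hg : IsMiller l k' m g) : f = g := by
  rw [← sub_eq_zero]
  apply eq_zero_of_coeff (l + 1)
  · intro i hi
    rw [FunLike.coe_sub, ModularForm.qExpansion_sub one_pos one_mem_strictPeriods_SL, map_sub,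
      hf i (by omega), hg i (by omega), sub_self]
  · intro g
    have := weight_small hk (ModularForm.mcast (by push_cast; ring) g)
    rwa [ModularForm.mcast_eq_zero_iff] at this

end Q262.Miller
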