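import Mathlib
import Pool.Agent.Y949.J.Ram2

/-!
The normalized derivative on `q`-expansions.
-/

set_option autoImplicit false

open UpperHalfPlane hiding I
open Real Complex Filter Topology Derivative EisensteinSeries ModularForm MatrixGroups Function
open scoped Manifold MatrixGroups ModularForm

namespace Q262.Miller

/-- A function with a `q`-expansion is periodic. -/
lemma periodic_of_hasSum {f : ℍ → ℂ} {c : ℕ → ℂ}
    (hs : ∀ τ : ℍ, HasSum (fun m : ℕ => c m • Function.Periodic.qParam 1 τ ^ m) (f τ)) :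
    Function.Periodic (f ∘ ofComplex) (1 : ℝ) := by
  intro w
  by_cases hw : 0 < w.im
  · have hw1 : 0 < (w + (1 : ℝ)).im := by simpa using hw
    simp only [comp_apply, ofComplex_apply_of_im_pos hw1, ofComplex_apply_of_im_pos hw]
    have h1 := hs ⟨w + (1 : ℝ), hw1⟩
    have h2 := hs ⟨w, hw⟩
    have h3 : Function.Periodic.qParam 1 (w + (1 : ℝ)) = Function.Periodic.qParam 1 w := by
      simp only [Function.Periodic.qParam, ofReal_one, div_one]
      rw [mul_add, mul_one, Complex.exp_add, Complex.exp_two_pi_mul_I, mul_one]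
    change HasSum (fun m : ℕ => c m • Function.Periodic.qParam 1 (w + (1 : ℝ)) ^ m) _ at h1
    rw [h3] at h1
    exact h1.unique h2
  · have hw0 : w.im ≤ 0 := not_lt.mp hw
    have hw1 : (w + (1 : ℝ)).im ≤ 0 := by simpa using hw0
    simp only [comp_apply, ofComplex_apply_of_im_nonpos hw0, ofComplex_apply_of_im_nonpos hw1]

/-- Good functions: holomorphic, one-periodic, bounded at `i∞`. -/
structure Good (f : ℍ → ℂ) : Prop where
  hol : MDiff f
  per : Function.Periodic (f ∘ ofComplex) (1 : ℝ)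
  bdd : IsBoundedAtImInfty f

lemma Good.analytic {f : ℍ → ℂ} (hf : Good f) : AnalyticAt ℂ (cuspFunction 1 f) 0 :=
  analyticAt_cuspFunction_zero one_pos hf.per hf.hol hf.bdd

lemma Good.hasSum {f : ℍ → ℂ} (hf : Good f) (τ : ℍ) :
    HasSum (fun m : ℕ => (qExpansion 1 f).coeff m • Function.Periodic.qParam 1 τ ^ m) (f τ) :=
  UpperHalfPlane.hasSum_qExpansion one_pos hf.per hf.hol hf.bdd τ

lemma good_of_hasSum {f : ℍ → ℂ} (hf : MDiff f) {c : ℕ → ℂ}
    (hs : ∀ τ : ℍ, HasSum (fun m : ℕ => c m • Function.Periodic.qParam 1 τ ^ m) (f τ)) : Good f :=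
  ⟨hf, periodic_of_hasSum hs, isBoundedAtImInfty_of_hasSum_qExpansion one_pos hs⟩

lemma coeff_of_hasSum {f : ℍ → ℂ} (hf : Good f) {c : ℕ → ℂ}
    (hs : ∀ τ : ℍ, HasSum (fun m : ℕ => c m • Function.Periodic.qParam 1 τ ^ m) (f τ)) (m : ℕ) :
    (qExpansion 1 f).coeff m = c m := by
  have h1 := (hasFPowerSeriesOnBall_cuspFunction one_pos hf.analytic hs).hasFPowerSeriesAt
  have h2 := (hasFPowerSeriesOnBall_cuspFunction one_pos hf.analytic hf.hasSum).hasFPowerSeriesAt
  have h3 := h1.eq_formalMultilinearSeries h2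
  have h4 := congr_arg (FormalMultilinearSeries.coeff · m) h3
  simpa [FormalMultilinearSeries.coeff_ofScalars] using h4.symm

lemma good_modularForm {k : ℤ} (f : ModularForm 𝒮ℒ k) : Good f :=
  ⟨ModularFormClass.holo f,
    SlashInvariantFormClass.periodic_comp_ofComplex f one_mem_strictPeriods_SL,
    ModularFormClass.bdd_at_infty f⟩

/-- The formula `D f = q dg/dq` for `f = g(q)`. -/
lemma D_eq {f : ℍ → ℂ} (hf : Good f) (τ : ℍ) :
    D f τ = Function.Periodic.qParam 1 τ * deriv (cuspFunction 1 f) (Function.Periodic.qParam 1 τ) := by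
  have h1 : (f ∘ ofComplex) =ᶠ[𝓝 (τ : ℂ)] fun z => cuspFunction 1 f (Function.Periodic.qParam 1 z) := by
    filter_upwards [isOpen_upperHalfPlaneSet.mem_nhds τ.im_pos] with z hz
    have hz' : 0 < z.im := hz
    have := eq_cuspFunction (f := f) ⟨z, hz'⟩ one_ne_zero hf.per
    simp only [comp_apply, ofComplex_apply_of_im_pos hz']
    exact this.symm
  have hq : ‖Function.Periodic.qParam 1 (τ : ℂ)‖ < 1 := Periodic.norm_qParam_lt_one one_pos τ.im_pos
  have h2 : HasDerivAt (fun z : ℂ => Function.Periodic.qParam 1 z) (2 * π * Complex.I * Function.Periodic.qParam 1 τ) (τ : ℂ) := by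
    have : HasDerivAt (fun z : ℂ => 2 * π * Complex.I * z / (1 : ℝ)) (2 * π * Complex.I) (τ : ℂ) := by
      simpa using (hasDerivAt_id (τ : ℂ)).const_mul (2 * π * Complex.I)
    have h3 := this.cexp
    have h4 : (2 * (π : ℂ) * Complex.I * Function.Periodic.qParam 1 τ)
        = cexp (2 * π * Complex.I * τ / (1 : ℝ)) * (2 * π * Complex.I) := by
      unfold Function.Periodic.qParam
      ring
    rw [h4]
    exact h3
  have h3 : DifferentiableAt ℂ (cuspFunction 1 f) (Function.Periodic.qParam 1 (τ : ℂ)) :=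
    differentiableAt_cuspFunction one_pos hf.per hf.hol hf.bdd hq
  have h4 := (h3.hasDerivAt.comp (τ : ℂ) h2)
  have h5 : deriv (f ∘ ofComplex) (τ : ℂ) = deriv (cuspFunction 1 f) (Function.Periodic.qParam 1 τ) *
      (2 * π * Complex.I * Function.Periodic.qParam 1 τ) := by
    rw [h1.deriv_eq]
    exact h4.deriv
  unfold normalizedDerivOfComplex
  rw [h5]
  have h6 : (2 * (π : ℂ) * Complex.I) ≠ 0 := Complex.two_pi_I_ne_zero
  field_simp

lemma hasSum_D {f : ℍ → ℂ} (hf : Good f) (τ : ℍ) :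
    HasSum (fun m : ℕ => ((m : ℂ) * (qExpansion 1 f).coeff m) • Function.Periodic.qParam 1 τ ^ m) (D f τ) := by
  set g := cuspFunction 1 f with hg
  have hq : ‖Function.Periodic.qParam 1 (τ : ℂ)‖ < 1 := Periodic.norm_qParam_lt_one one_pos τ.im_pos
  have hdiff : DifferentiableOn ℂ g (Metric.ball 0 1) :=
    differentiableOn_cuspFunction_ball one_pos hf.per hf.hol hf.bdd
  have hdiff' : DifferentiableOn ℂ (deriv g) (Metric.ball 0 1) := hdiff.deriv Metric.isOpen_ball
  have h1 := hasSum_taylorSeries_on_ball hdiff'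
    (z := Function.Periodic.qParam 1 (τ : ℂ)) (by simpa using hq)
  rw [D_eq hf τ]
  rw [← hasSum_nat_add_iff' 1]
  simp only [Finset.range_one, Finset.sum_singleton, CharP.cast_eq_zero, zero_mul, zero_smul,
    sub_zero]
  have h2 := h1.mul_left (Function.Periodic.qParam 1 (τ : ℂ))
  have h3 : (fun m : ℕ => (((m + 1 : ℕ) : ℂ) * (qExpansion 1 f).coeff (m + 1)) •
      Function.Periodic.qParam 1 (τ : ℂ) ^ (m + 1)) = fun m : ℕ => Function.Periodic.qParam 1 (τ : ℂ) *
        ((m.factorial : ℂ)⁻¹ • (Function.Periodic.qParam 1 (τ : ℂ) - 0) ^ m • iteratedDeriv m (deriv g) 0) := by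
    funext m
    rw [qExpansion_coeff, ← hg, iteratedDeriv_succ', sub_zero, smul_eq_mul, smul_eq_mul,
      smul_eq_mul, Nat.factorial_succ]
    have : ((m.factorial : ℕ) : ℂ) ≠ 0 := by exact_mod_cast m.factorial_ne_zero
    have : ((m : ℂ) + 1) ≠ 0 := by exact_mod_cast Nat.succ_ne_zero m
    push_cast
    field_simp
    ring
  rw [h3]
  exact h2

lemma good_D {f : ℍ → ℂ} (hf : Good f) : Good (D f) :=
  good_of_hasSum (normalizedDerivOfComplex_mdifferentiable hf.hol) (hasSum_D hf)

/-- `D` acts as `q d/dq` on `q`-expansions. -/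
lemma coeff_D {f : ℍ → ℂ} (hf : Good f) (m : ℕ) :
    (qExpansion 1 (D f)).coeff m = m * (qExpansion 1 f).coeff m :=
  coeff_of_hasSum (good_D hf) (hasSum_D hf) m

lemma good_E2 : Good E2 := by
  refine good_of_hasSum E2_mdifferentiable
    (c := fun m : ℕ ↦ (if m = 0 then 1 else -24 * ArithmeticFunction.sigma 1 m : ℂ)) ?_
  intro τ
  simpa only [Function.Periodic.qParam, ofReal_one, div_one] using hasSum_qExpansion_E2 (z := τ)

lemma coeff_E2 (m : ℕ) : (qExpansion 1 E2).coeff m =
    (if m = 0 then 1 else -24 * ArithmeticFunction.sigma 1 m : ℂ) := by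
  refine coeff_of_hasSum good_E2
    (c := fun m : ℕ ↦ (if m = 0 then 1 else -24 * ArithmeticFunction.sigma 1 m : ℂ)) ?_ m
  intro τ
  simpa only [Function.Periodic.qParam, ofReal_one, div_one] using hasSum_qExpansion_E2 (z := τ)

end Q262.Miller
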