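import Pool.Agent.Q262.Miller.Defs

/-!
Zeros of Miller basis forms off the arc and the threshold index.
-/

set_option autoImplicit false

open UpperHalfPlane hiding I
open ModularForm MatrixGroups

namespace Q262.Miller

/-- The arc `{e^{iθ} : θ ∈ [π/2, 2π/3]}`. -/
def arc : Set ℍ :=
  {τ | ∃ θ : ℝ, Real.pi / 2 ≤ θ ∧ θ ≤ 2 * Real.pi / 3 ∧ (τ : ℂ) = Complex.exp (θ * Complex.I)}

/-- The Miller basis form `f_{12ℓ,m}` has a zero whose `SL(2,ℤ)`-orbit does not meet the arc. -/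
def HasZeroOffArc (l m : ℕ) : Prop :=
  ∃ f : ModularForm 𝒮ℒ ((12 * l + 0 : ℕ) : ℤ), IsMiller l 0 m f ∧
    ∃ τ : ℍ, f τ = 0 ∧ ∀ γ : SL(2, ℤ), γ • τ ∉ arc

/-- `M = m(12ℓ)`: `M` is the least `m ∈ {0, …, ℓ}` such that `f_{12ℓ,m}` has a zero not on the
arc. -/
def IsThreshold (l M : ℕ) : Prop := IsLeast {m | m ≤ l ∧ HasZeroOffArc l m} M

/-- The constants `m_0, …, m_15`. -/
def mr : List ℕ := [4, 3, 4, 5, 6, 7, 6, 7, 8, 9, 10, 9, 10, 11, 12, 13]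

/-- The statement of the question for `ℓ = 16 s + r`: `m(12ℓ) = 10 s + m_r`, and `f_{12ℓ,m}` has a
zero not on the arc for all `m(12ℓ) ≤ m ≤ ℓ - 1`. -/
def Formula (l : ℕ) : Prop :=
  IsThreshold l (10 * (l / 16) + mr.getD (l % 16) 0) ∧
    ∀ m, 10 * (l / 16) + mr.getD (l % 16) 0 ≤ m → m ≤ l - 1 → HasZeroOffArc l m

end Q262.Miller
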