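import Pool.Agent.Q262.Miller.Link
import Pool.Agent.Q262.Miller.ArcMain
import Pool.Agent.Q262.Miller.ThreshDefs

/-!
Two Miller basis forms below the conjectural threshold with zeros off the arc.
-/

set_option autoImplicit false

open UpperHalfPlane hiding I
open EisensteinSeries ModularForm MatrixGroups Polynomial

namespace Q262.Miller

lemma exists_root_off {D : ℕ} (hD : Even D) {F : ℂ[X]} (hF : F.Monic) (hdeg : F.natDegree = D)
    (a : ℤ) (ha : a < 0) (h0 : F.eval 0 = (a : ℂ)) :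
    ∃ z : ℂ, F.eval z = 0 ∧ ∀ x : ℝ, 0 ≤ x → x ≤ 1728 → z ≠ (x : ℂ) := by
  by_contra hcon
  push Not at hcon
  have hsplit : F.Splits := IsAlgClosed.splits F
  have hroots : F.eval 0 = (F.roots.map (fun r => 0 - r)).prod := by
    conv_lhs => rw [hsplit.eq_prod_roots_of_monic hF]
    rw [Polynomial.eval_multiset_prod]
    simp [Multiset.map_map]
  have hcard : F.roots.card = D := by
    rw [← hdeg]; exact (Polynomial.Splits.natDegree_eq_card_roots hsplit).symm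
  have key : ∀ s : Multiset ℂ, (∀ z ∈ s, ∃ x : ℝ, 0 ≤ x ∧ z = (x : ℂ)) →
      ∃ y : ℝ, 0 ≤ y ∧ (s.map (fun r => 0 - r)).prod = (-1) ^ s.card * (y : ℂ) := by
    intro s
    induction s using Multiset.induction_on with
    | empty => intro _; exact ⟨1, zero_le_one, by simp⟩
    | cons b s ih =>
      intro hs
      obtain ⟨y, hy, hy2⟩ := ih (fun z hz => hs z (Multiset.mem_cons_of_mem hz))
      obtain ⟨x, hx, hx2⟩ := hs b (Multiset.mem_cons_self b s)
      refine ⟨x * y, mul_nonneg hx hy, ?_⟩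
      rw [Multiset.map_cons, Multiset.prod_cons, hy2, hx2, Multiset.card_cons, pow_succ]
      push_cast
      ring
  obtain ⟨y, hy, hy2⟩ := key F.roots (by
    intro z hz
    obtain ⟨x, hx0, _, hx⟩ := hcon z (Polynomial.isRoot_of_mem_roots hz)
    exact ⟨x, hx0, hx⟩)
  rw [← hroots, hcard, hD.neg_one_pow, one_mul, h0] at hy2
  have h3 : ((a : ℝ) : ℂ) = (y : ℂ) := by exact_mod_cast hy2
  have h4 : (a : ℝ) = y := by exact_mod_cast h3
  have h5 : (a : ℝ) < 0 := by exact_mod_cast ha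
  linarith

lemma off_arc {z : ℂ} (hz : ∀ x : ℝ, 0 ≤ x → x ≤ 1728 → z ≠ (x : ℂ)) {τ : ℍ}
    (hτ : jInv τ = z) (γ : SL(2, ℤ)) : γ • τ ∉ arc := by
  rintro ⟨θ, h1, h2, h3⟩
  have hmem : θ ∈ Set.Icc (Real.pi / 2) (2 * Real.pi / 3) := ⟨h1, h2⟩
  obtain ⟨x, hx0, hx1, hx⟩ := jj_mem hmem
  have h4 : up θ = γ • τ := by
    unfold up
    have : pt θ = ((γ • τ : ℍ) : ℂ) := h3.symm
    rw [this, ofComplex_apply]
  have h5 : jInv (γ • τ) = jInv τ := Pool.Agent.Y729.FW.j_smul γ τ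
  have h6 : jj θ = jInv (up θ) := by
    unfold jInv
    rw [j_eq]
    rfl
  rw [h4, h5, hτ] at h6
  exact hz x hx0 hx1 (by rw [← h6, hx])

theorem zero_off (l m D : ℕ) (hm : m ≤ l) (hlm : l - m = D) (hD : Even D) (hD2 : D ≤ 112)
    (L : List ℤ) (hlen : L.length = D + 1) (hchk : K.chkW (24 * l) K.sg1 L = true)
    (hneg : K.dot K.QQ.reverse L < 0) : HasZeroOffArc l m := by
  have hk : 0 ∈ residues := by simp [residues]
  obtain ⟨F, hF⟩ := faber_exists (m := m) hk hm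
  have h1 := faber_eval_zero hm hF
  rw [hlm, coeff_eq_dot l L D hD2 hlen hchk] at h1
  obtain ⟨z, hz0, hz⟩ := exists_root_off hD hF.1 (by rw [hF.2.1, hlm]) _ hneg h1
  obtain ⟨τ, hτ⟩ := Pool.Agent.Y729.FW.j_surj z
  have hτ' : jInv τ = z := hτ
  obtain ⟨_, _, f, hf, hfF⟩ := hF
  refine ⟨f, hf, τ, ?_, fun γ => off_arc hz hτ' γ⟩
  rw [hfF τ, hτ', hz0, mul_zero]

end Q262.Miller
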